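import Mathlib

set_option autoImplicit false

open CategoryTheory MonoidalCategory Limits

universe u

namespace Pool.Agent.MP_df5a96_ag

/-! ### Coherent sheaves on `P^1 x P^1` as bigraded modules -/

/-- A graded module over `K[x_0, x_1]`: its graded pieces `M a` and the two commuting
multiplication operators. -/
structure GrMod (K : Type u) [Field K] where
  M : ℤ → ModuleCat.{u} K
  x : Fin 2 → ∀ a, M a ⟶ M (a + 1)
  comm : ∀ i j a, x j a ≫ x i (a + 1) = x i a ≫ x j (a + 1)

/-- A `ℤ × ℤ`-graded module over `K[x_0, x_1, y_0, y_1]`, where `x_i` has degree `(1, 0)` and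
`y_j` has degree `(0, 1)`: its graded pieces `M a b` and the four commuting multiplication
operators. -/
structure BiMod (K : Type u) [Field K] where
  M : ℤ → ℤ → ModuleCat.{u} K
  x : Fin 2 → ∀ a b, M a b ⟶ M (a + 1) b
  y : Fin 2 → ∀ a b, M a b ⟶ M a (b + 1)
  xx : ∀ i j a b, x j a b ≫ x i (a + 1) b = x i a b ≫ x j (a + 1) b
  yy : ∀ i j a b, y j a b ≫ y i a (b + 1) = y i a b ≫ y j a (b + 1)
  xy : ∀ i j a b, y j a b ≫ x i a (b + 1) = x i a b ≫ y j (a + 1) b

variable {K : Type u} [Field K]

/-- The bigraded module is finitely generated: finitely many homogeneous elements `g i` lie in no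
proper graded submodule. -/
def BiMod.FG (F : BiMod K) : Prop :=
  ∃ (n : ℕ) (d : Fin n → ℤ × ℤ) (g : ∀ i, F.M (d i).1 (d i).2),
    ∀ N : ∀ a b, Submodule K (F.M a b),
      (∀ i, g i ∈ N (d i).1 (d i).2) →
      (∀ i a b m, m ∈ N a b → (F.x i a b).hom m ∈ N (a + 1) b) →
      (∀ i a b m, m ∈ N a b → (F.y i a b).hom m ∈ N a (b + 1)) →
      ∀ a b, N a b = ⊤

/-- Two bigraded modules define isomorphic sheaves on `P^1 x P^1`: their truncations to the
degrees `≥ (k, k)` are isomorphic for some `k`. -/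
def SheafIso (F G : BiMod K) : Prop :=
  ∃ (k : ℤ) (φ : ∀ a b, F.M a b ⟶ G.M a b),
    (∀ a b, k ≤ a → k ≤ b → IsIso (φ a b)) ∧
    (∀ i a b, k ≤ a → k ≤ b → F.x i a b ≫ φ (a + 1) b = φ a b ≫ G.x i a b) ∧
    (∀ i a b, k ≤ a → k ≤ b → F.y i a b ≫ φ a (b + 1) = φ a b ≫ G.y i a b)

/-- The box product of two graded modules: `(P ⊠ Q)_(a, b) = P_a ⊗ Q_b`. -/
noncomputable def boxProd (P Q : GrMod K) : BiMod K where
  M a b := P.M a ⊗ Q.M b
  x i a b := P.x i a ▷ Q.M b
  y i a b := P.M a ◁ Q.x i b
  xx i j a b := by rw [← comp_whiskerRight, ← comp_whiskerRight, P.comm]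
  yy i j a b := by rw [← whiskerLeft_comp, ← whiskerLeft_comp, Q.comm]
  xy i j a b := whisker_exchange _ _

/-- The direct sum of a finite family of bigraded modules. -/
noncomputable def dirSum {r : ℕ} (F : Fin r → BiMod K) : BiMod K where
  M a b := ⨁ fun t => (F t).M a b
  x i a b := biproduct.map fun t => (F t).x i a b
  y i a b := biproduct.map fun t => (F t).y i a b
  xx i j a b := by
    apply biproduct.hom_ext'
    intro t
    simp only [biproduct.ι_map_assoc, biproduct.ι_map]
    rw [← Category.assoc, ← Category.assoc, (F t).xx]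
  yy i j a b := by
    apply biproduct.hom_ext'
    intro t
    simp only [biproduct.ι_map_assoc, biproduct.ι_map]
    rw [← Category.assoc, ← Category.assoc, (F t).yy]
  xy i j a b := by
    apply biproduct.hom_ext'
    intro t
    simp only [biproduct.ι_map_assoc, biproduct.ι_map]
    rw [← Category.assoc, ← Category.assoc, (F t).xy]

/-- The sheaf of `F` is isomorphic to a (finite) direct sum of box products of sheaves on `P^1`. -/
def IsSumOfBoxProducts (F : BiMod K) : Prop :=
  ∃ (r : ℕ) (P Q : Fin r → GrMod K), SheafIso F (dirSum fun t => boxProd (P t) (Q t))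

/-! ### The exterior algebra and complexes of free modules over it -/

variable (K)

/-- `V_1 ⊕ V_2 = K^4`, with the basis `e_0, e_1` (of `V_1`, indices `inl 0`, `inl 1`) and
`f_0, f_1` (of `V_2`, indices `inr 0`, `inr 1`). -/
def VV : Type u := Fin 2 ⊕ Fin 2 → K

noncomputable instance instAddCommGroupVV : AddCommGroup (VV K) :=
  (inferInstance : AddCommGroup (Fin 2 ⊕ Fin 2 → K))

noncomputable instance instModuleVV : Module K (VV K) :=
  (inferInstance : Module K (Fin 2 ⊕ Fin 2 → K))

/-- the basis vectors of `V_1 ⊕ V_2` -/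
noncomputable def bas (s : Fin 2 ⊕ Fin 2) : VV K := fun t => if t = s then 1 else 0

/-- `E = Λ(V_1 ⊕ V_2) = Λ V_1 ⊗ Λ V_2` -/
abbrev EE : Type u := ExteriorAlgebra K (VV K)

/-- the basis vectors in `E` -/
noncomputable def gen (s : Fin 2 ⊕ Fin 2) : EE K := ExteriorAlgebra.ι K (bas K s)

/-- the basis vectors `e_0, e_1` of `V_1` in `E` -/
noncomputable def ee (i : Fin 2) : EE K := gen K (Sum.inl i)

/-- the basis vectors `f_0, f_1` of `V_2` in `E` -/
noncomputable def ff (i : Fin 2) : EE K := gen K (Sum.inr i)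

/-- The homogeneous piece of `E` of degree `g`, where `V_1` has degree `(-1, 0)` and `V_2` has
degree `(0, -1)`: for `g = (-i, -j)` it is spanned by the products of `i` factors `e_0, e_1` and
`j` factors `f_0, f_1`, so it is `Λ^i V_1 ∧ Λ^j V_2`; it is `0` if `g_1 > 0` or `g_2 > 0`. -/
noncomputable def Edeg (g : ℤ × ℤ) : Submodule K (EE K) :=
  Submodule.span K {x | ∃ l m : List (Fin 2), (l.length : ℤ) = -g.1 ∧ (m.length : ℤ) = -g.2 ∧
    x = (l.map (ee K)).prod * (m.map (ff K)).prod}

/-- `E_1 = Λ V_1` as a subalgebra of `E` -/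
noncomputable def E1 : Subalgebra K (EE K) := Algebra.adjoin K (Set.range (ee K))

/-- `E_2 = Λ V_2` as a subalgebra of `E` -/
noncomputable def E2 : Subalgebra K (EE K) := Algebra.adjoin K (Set.range (ff K))

/-- A complex `T` whose terms are direct sums of twists of `ω_E`. The term `T^d` is the direct sum
of the `ω_E(deg d i)`, `i ∈ idx d`. As `Hom_E(ω_E(a), ω_E(b)) = E_(b-a)`, the differential
`T^d → T^(d+1)` is a matrix with entries `mat d i j ∈ E` of degree `deg j - deg i`; the entries
`mat d i` give the image of the generator `i`. -/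
structure FreeCx where
  idx : ℤ → Type u
  deg : ∀ d, idx d → ℤ × ℤ
  mat : ∀ d, idx d → (idx (d + 1) →₀ EE K)
  homog : ∀ d i j, mat d i j ∈ Edeg K (deg (d + 1) j - deg d i)
  sq : ∀ d i k, ((mat d i).sum fun j x => mat (d + 1) j k * x) = 0

variable {K}

/-- The `j`-th component of the differential of `T` at the element `y` of the free `E`-module
`⊕_i E ≅ ⊕_i ω_E(deg i)`. -/
noncomputable def FreeCx.diff (T : FreeCx K) (d : ℤ) (y : T.idx d →₀ EE K) (j : T.idx (d + 1)) :
    EE K :=
  y.sum fun i x => T.mat d i j * x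

/-- The subquotient complex of `T` formed by the summands `ω_E(a)` with `a ∈ A` is exact. -/
def FreeCx.StrandExact (T : FreeCx K) (A : Set (ℤ × ℤ)) : Prop :=
  ∀ (d : ℤ) (z : T.idx (d + 1) →₀ EE K), (∀ i, z i ≠ 0 → T.deg _ i ∈ A) →
    (∀ k, T.deg _ k ∈ A → T.diff (d + 1) z k = 0) →
    ∃ y : T.idx d →₀ EE K, (∀ i, y i ≠ 0 → T.deg _ i ∈ A) ∧
      ∀ j, T.deg _ j ∈ A → T.diff d y j = z j

/-- `T` is a Tate resolution: a locally finite complex all of whose strands are exact, that is the
complex itself (`I = ∅`), and the strands with a fixed first or a fixed second degree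
(`I = {1}`, `I = {2}`). -/
def FreeCx.IsTate (T : FreeCx K) : Prop :=
  (∀ a : ℤ × ℤ, Set.Finite {p : Σ d, T.idx d | T.deg p.1 p.2 = a}) ∧
  T.StrandExact Set.univ ∧
  (∀ c : ℤ, T.StrandExact {a | a.1 = c}) ∧
  (∀ c : ℤ, T.StrandExact {a | a.2 = c})

/-- `T` is minimal: `T ⊗_E K` has zero differential, i.e. all matrix entries lie in the
augmentation ideal of `E`, which is generated by `V_1 ⊕ V_2`. -/
def FreeCx.IsMinimal (T : FreeCx K) : Prop :=
  ∀ d i j, T.mat d i j ∈ Ideal.span (Set.range (gen K))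

/-- A double-complex structure on `T`: the summands of `T^d` are distributed over the `T^(p, q)`
with `p + q = d` (`pos` is `p`), and the differential is the sum of a part `T^(p,q) → T^(p+1,q)`
with entries in `E_1` and a part `T^(p,q) → T^(p,q+1)` with entries in `E_2`. -/
def FreeCx.HasDoubleComplexStructure (T : FreeCx K) : Prop :=
  ∃ pos : ∀ d, T.idx d → ℤ, ∀ d i j,
    (T.mat d i j ≠ 0 → pos (d + 1) j = pos d i + 1 ∨ pos (d + 1) j = pos d i) ∧
    (pos (d + 1) j = pos d i + 1 → T.mat d i j ∈ E1 K) ∧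
    (pos (d + 1) j = pos d i → T.mat d i j ∈ E2 K)

/-! ### The functor `U` and Beilinson monads -/

variable (K)

/-- The bigraded polynomial ring `S = K[x_0, x_1, y_0, y_1]`; `x_i = X (inl i)`,
`y_j = X (inr j)`. -/
abbrev SS := MvPolynomial (Fin 2 ⊕ Fin 2) K

/-- the weights: `x_i` has degree `(1, 0)`, `y_j` has degree `(0, 1)` -/
def wt : Fin 2 ⊕ Fin 2 → ℤ × ℤ := Sum.elim (fun _ => (1, 0)) (fun _ => (0, 1))

/-- the forms of bidegree `(p, q)` -/
noncomputable def forms (p q : ℤ) : Submodule K (SS K) :=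
  MvPolynomial.weightedHomogeneousSubmodule K wt (p, q)

/-- The `S`-module of the sheaf `⊕_(a, b) Λ^a U_1 ⊠ Λ^b U_2` (`a, b ∈ {0, 1}`). On `P^1` the
tautological subbundle `U_1 ⊂ W_1 ⊗ O` is `O(-1)`, embedded by its generator `(x_1, -x_0)`,
and similarly `U_2 ≅ O(-1)` is embedded by `(y_1, -y_0)`. The component `n a b` of an element
`n` is its coefficient with respect to the generator of `Λ^a U_1 ⊠ Λ^b U_2 ≅ O(-a, -b)`. -/
def UU : Type u := Fin 2 → Fin 2 → SS K

noncomputable instance instAddCommGroupUU : AddCommGroup (UU K) :=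
  (inferInstance : AddCommGroup (Fin 2 → Fin 2 → SS K))

noncomputable instance instModuleUU : Module K (UU K) :=
  (inferInstance : Module K (Fin 2 → Fin 2 → SS K))

noncomputable instance instModuleSUU : Module (SS K) (UU K) :=
  (inferInstance : Module (SS K) (Fin 2 → Fin 2 → SS K))

/-- Contraction with the basis vectors of `V_1 ⊕ V_2`: on `U_1` the vector `e_0` acts by
`(x_1, -x_0) ↦ x_1` and `e_1` by `(x_1, -x_0) ↦ -x_0`, and similarly for `f_0, f_1` on `U_2`,
with the sign `(-1)^a` on `Λ^a U_1 ⊠ U_2`. -/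
noncomputable def cgen (s : Fin 2 ⊕ Fin 2) (n : UU K) : UU K :=
  match s with
  | Sum.inl i => fun a b =>
      if a = 0 then (if i = 0 then MvPolynomial.X (Sum.inl 1) else -MvPolynomial.X (Sum.inl 0)) *
        n 1 b
      else 0
  | Sum.inr i => fun a b =>
      if b = 0 then (-1) ^ (a : ℕ) *
        ((if i = 0 then MvPolynomial.X (Sum.inr 1) else -MvPolynomial.X (Sum.inr 0)) * n a 1)
      else 0

theorem cgen_add (s : Fin 2 ⊕ Fin 2) (n n' : UU K) :
    cgen K s (n + n') = cgen K s n + cgen K s n' := by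
  have h : ∀ a b, (n + n') a b = n a b + n' a b := fun _ _ => rfl
  funext a b
  change _ = cgen K s n a b + cgen K s n' a b
  rcases s with i | i
  all_goals
    simp only [cgen, h]
    split_ifs <;> ring

theorem cgen_smul (s : Fin 2 ⊕ Fin 2) (c : K) (n : UU K) :
    cgen K s (c • n) = c • cgen K s n := by
  have h : ∀ a b, (c • n) a b = MvPolynomial.C c * n a b :=
    fun _ _ => MvPolynomial.smul_eq_C_mul _ _
  funext a b
  change _ = c • (cgen K s n a b)
  rw [MvPolynomial.smul_eq_C_mul]
  rcases s with i | i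
  all_goals
    simp only [cgen, h]
    split_ifs <;> ring

/-- contraction with the basis vectors as linear maps -/
noncomputable def cgenLin (s : Fin 2 ⊕ Fin 2) : Module.End K (UU K) where
  toFun := cgen K s
  map_add' := cgen_add K s
  map_smul' := cgen_smul K s

/-- contraction with the vectors of `V_1 ⊕ V_2 = K^4`, i.e. `v` acts by `∑ s, v s • cgenLin s` -/
noncomputable def contr : VV K →ₗ[K] Module.End K (UU K) :=
  Fintype.linearCombination K (cgenLin K)

theorem contr_apply (v : VV K) (n : UU K) (a b : Fin 2) :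
    contr K v n a b = (if a = 0 then
          (MvPolynomial.C (v (Sum.inl 0)) * MvPolynomial.X (Sum.inl 1) -
            MvPolynomial.C (v (Sum.inl 1)) * MvPolynomial.X (Sum.inl 0)) * n 1 b
        else 0) +
        (if b = 0 then
          (-1) ^ (a : ℕ) * ((MvPolynomial.C (v (Sum.inr 0)) * MvPolynomial.X (Sum.inr 1) -
            MvPolynomial.C (v (Sum.inr 1)) * MvPolynomial.X (Sum.inr 0)) * n a 1)
        else 0) := by
  have h : ∀ s, (v s • cgenLin K s) n a b = MvPolynomial.C (v s) * cgen K s n a b := by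
    intro s
    exact MvPolynomial.smul_eq_C_mul _ _
  have h2 : contr K v n a b = ∑ s, (v s • cgenLin K s) n a b := by
    have h3 : contr K v = ∑ s, v s • cgenLin K s := rfl
    rw [h3, LinearMap.sum_apply]
    have h4 : ∀ (t : Finset (Fin 2 ⊕ Fin 2)) (f : Fin 2 ⊕ Fin 2 → UU K),
        (∑ s ∈ t, f s) a b = ∑ s ∈ t, f s a b := by
      intro t f
      have := map_sum (AddMonoidHom.mk' (fun n : UU K => n a b) fun _ _ => rfl) f t
      exact this
    exact h4 _ _
  rw [h2]
  simp only [h, Fintype.sum_sum_type, Fin.sum_univ_two, cgen]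
  split_ifs <;> simp_all <;> ring

theorem contr_sq (v : VV K) : contr K v * contr K v = 0 := by
  refine LinearMap.ext fun n => ?_
  funext a b
  change contr K v (contr K v n) a b = 0
  simp only [contr_apply]
  fin_cases a <;> fin_cases b
  all_goals
    simp
    try ring

/-- The contractions with the basis vectors extend to an action of the algebra `E`. -/
theorem exists_contract : ∃ ρ : EE K →ₐ[K] Module.End K (UU K), ∀ s, ρ (gen K s) = cgenLin K s := by
  refine ⟨ExteriorAlgebra.lift K ⟨contr K, contr_sq K⟩, fun s => ?_⟩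
  have h1 : ExteriorAlgebra.lift K ⟨contr K, contr_sq K⟩ (gen K s) = contr K (bas K s) :=
    ExteriorAlgebra.lift_ι_apply K (contr K) (contr_sq K) (bas K s)
  have h3 : (bas K s : Fin 2 ⊕ Fin 2 → K) = Pi.single s 1 := by
    funext t
    rw [Pi.single_apply]
    rfl
  have h4 : Fintype.linearCombination K (cgenLin K) (Pi.single s 1) = cgenLin K s := by
    rw [Fintype.linearCombination_apply_single, one_smul]
  rw [← h3] at h4
  exact h1.trans h4

/-- The action of `E` by contractions, i.e. the homomorphism of algebras from `E` to the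
endomorphisms with `e_i, f_j ↦` contraction with `e_i, f_j`. This is the functor `U` on
morphisms. -/
noncomputable def contract : EE K →ₐ[K] Module.End K (UU K) := (exists_contract K).choose

theorem contract_gen_eq (s : Fin 2 ⊕ Fin 2) : contract K (gen K s) = cgenLin K s :=
  (exists_contract K).choose_spec s

variable {K}

/-- `n` is in the piece of bidegree `(p, q)` of `U(ω_E(g)) = Λ^(g_1) U_1 ⊠ Λ^(g_2) U_2`, which is
zero unless `g ∈ {0, 1}²`. -/
def InU (g : ℤ × ℤ) (p q : ℤ) (n : UU K) : Prop :=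
  ∀ a b : Fin 2,
    ((((a : ℕ) : ℤ), ((b : ℕ) : ℤ)) = g → n a b ∈ forms K (p - g.1) (q - g.2)) ∧
    ((((a : ℕ) : ℤ), ((b : ℕ) : ℤ)) ≠ g → n a b = 0)

/-- The `j`-th component of the differential of `U(T)`. -/
noncomputable def FreeCx.Udiff (T : FreeCx K) (d : ℤ) (u : T.idx d →₀ UU K) (j : T.idx (d + 1)) :
    UU K :=
  u.sum fun i n => contract K (T.mat d i j) n

/-- `u` is in the piece of bidegree `(p, q)` of the term in degree `d` of `U(T(c))`. -/
def FreeCx.InTerm (T : FreeCx K) (c : ℤ × ℤ) (d p q : ℤ) (u : T.idx d →₀ UU K) : Prop :=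
  ∀ i, InU (T.deg d i + c) p q (u i)

/-- `u` is a cycle of bidegree `(p, q)` in degree `d` of `U(T(c))`. -/
def FreeCx.IsCycle (T : FreeCx K) (c : ℤ × ℤ) (d p q : ℤ) (u : T.idx d →₀ UU K) : Prop :=
  T.InTerm c d p q u ∧ ∀ j, T.Udiff d u j = 0

/-- `u` is a boundary of bidegree `(p, q)` in degree `d + 1` of `U(T(c))`. -/
def FreeCx.IsBoundary (T : FreeCx K) (c : ℤ × ℤ) (d p q : ℤ) (u : T.idx (d + 1) →₀ UU K) :
    Prop :=
  ∃ w, T.InTerm c d p q w ∧ ∀ j, T.Udiff d w j = u j

/-- The maps `π` identify the homology of `U(T(c))` in degree `d + 1` and bidegrees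
`(p, q) ≥ (k, k)` with `F(c)_(p, q) = F_(p + c_1, q + c_2)`, compatibly with the multiplication
by the `x_i` and `y_j`: they are `K`-linear, on the cycles they are surjective with kernel the
boundaries, and they commute with the `x_i` and `y_j`. (Here `π p q a b` is only used for
`a = p + c_1`, `b = q + c_2`.) -/
def FreeCx.IdentifiesHomology (T : FreeCx K) (c : ℤ × ℤ) (F : BiMod K) (k d : ℤ)
    (π : ∀ _p _q a b : ℤ, (T.idx (d + 1) →₀ UU K) → F.M a b) : Prop :=
  ∀ p q a b, k ≤ p → k ≤ q → a = p + c.1 → b = q + c.2 →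
    IsLinearMap K (π p q a b) ∧
    (∀ m : F.M a b, ∃ u, T.IsCycle c (d + 1) p q u ∧ π p q a b u = m) ∧
    (∀ u, T.IsCycle c (d + 1) p q u → (π p q a b u = 0 ↔ T.IsBoundary c d p q u)) ∧
    (∀ i u, T.IsCycle c (d + 1) p q u →
      π (p + 1) q (a + 1) b ((MvPolynomial.X (Sum.inl i) : SS K) • u) =
        (F.x i a b).hom (π p q a b u)) ∧
    (∀ i u, T.IsCycle c (d + 1) p q u →
      π p (q + 1) a (b + 1) ((MvPolynomial.X (Sum.inr i) : SS K) • u) =
        (F.y i a b).hom (π p q a b u))

/-- `U(T(c)[|c|])` is a Beilinson monad for `F(c)`: as complexes of sheaves (i.e. in all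
bidegrees `≥ (k, k)` for some `k`) its homology is `F(c)` in degree `0`, that is, in degree
`|c| = c_1 + c_2` of the unshifted complex `U(T(c))`, and zero in all other degrees. -/
def FreeCx.IsBeilinsonMonad (T : FreeCx K) (c : ℤ × ℤ) (F : BiMod K) : Prop :=
  ∃ k : ℤ,
    (∀ d p q, k ≤ p → k ≤ q → d + 1 ≠ c.1 + c.2 →
      ∀ u, T.IsCycle c (d + 1) p q u → T.IsBoundary c d p q u) ∧
    ∀ d, d + 1 = c.1 + c.2 →
      ∃ π : ∀ _p _q a b : ℤ, (T.idx (d + 1) →₀ UU K) → F.M a b,
        T.IdentifiesHomology c F k d π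

/-- `T = T(F)`: the minimal Tate resolution such that `U(T(c)[|c|])` is a Beilinson monad for
`F(c)`, for all `c`. -/
def IsTateResolutionOf (T : FreeCx K) (F : BiMod K) : Prop :=
  T.IsTate ∧ T.IsMinimal ∧ ∀ c, T.IsBeilinsonMonad c F

end Pool.Agent.MP_df5a96_ag
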