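import Mathlib
import Pool.Agent.MP_df5a96_ag.Defs

set_option autoImplicit false

open TensorProduct

universe u

namespace Pool.Agent.MP_df5a96_ag

variable (K : Type u) [Field K]

/-- The coefficients of the horizontal differential. -/
noncomputable def ce (r r' : Fin 2) : EE K := if r' = r then ee K 0 else if r = 0 then ee K 1 else 0

/-- The coefficients of the vertical differential. -/
noncomputable def cf (r r' : Fin 2) : EE K := if r' = r then ff K 0 else if r = 0 then ff K 1 else 0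

theorem gen_add (s t : Fin 2 ⊕ Fin 2) : gen K s * gen K t + gen K t * gen K s = 0 :=
  ExteriorAlgebra.ι_add_mul_swap (R := K) (bas K s) (bas K t)

theorem gen_sq (s : Fin 2 ⊕ Fin 2) : gen K s * gen K s = 0 :=
  ExteriorAlgebra.ι_sq_zero (R := K) (bas K s)

theorem ee_ee_add (i j : Fin 2) : ee K i * ee K j + ee K j * ee K i = 0 := gen_add K _ _

theorem ee_ff_add (i j : Fin 2) : ee K i * ff K j + ff K j * ee K i = 0 := gen_add K _ _

theorem ff_ee_add (i j : Fin 2) : ff K i * ee K j + ee K j * ff K i = 0 := gen_add K _ _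

theorem ff_ff_add (i j : Fin 2) : ff K i * ff K j + ff K j * ff K i = 0 := gen_add K _ _

theorem ee_sq (i : Fin 2) : ee K i * ee K i = 0 := gen_sq K _

theorem ff_sq (i : Fin 2) : ff K i * ff K i = 0 := gen_sq K _

theorem ce_ce (r r'' : Fin 2) : ∑ r', ce K r' r'' * ce K r r' = 0 := by
  fin_cases r <;> fin_cases r'' <;> simp [ce, ee_sq, ee_ee_add, Fin.sum_univ_two]

theorem cf_cf (r r'' : Fin 2) : ∑ r', cf K r' r'' * cf K r r' = 0 := by
  fin_cases r <;> fin_cases r'' <;> simp [cf, ff_sq, ff_ff_add, Fin.sum_univ_two]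

theorem ce_cf (r r'' : Fin 2) :
    ∑ r', ce K r' r'' * cf K r r' + ∑ r', cf K r' r'' * ce K r r' = 0 := by
  have h1 : ee K 1 * ff K 0 + ff K 0 * ee K 1 = 0 := ee_ff_add K 1 0
  have h2 : ee K 0 * ff K 1 + ff K 1 * ee K 0 = 0 := ee_ff_add K 0 1
  have h3 : ee K 1 * ff K 0 + ee K 0 * ff K 1 + (ff K 1 * ee K 0 + ff K 0 * ee K 1) = 0 := by
    have : ee K 1 * ff K 0 + ee K 0 * ff K 1 + (ff K 1 * ee K 0 + ff K 0 * ee K 1) =
      (ee K 1 * ff K 0 + ff K 0 * ee K 1) + (ee K 0 * ff K 1 + ff K 1 * ee K 0) := by abel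
    rw [this, h1, h2, add_zero]
  fin_cases r <;> fin_cases r'' <;> simp [ce, cf, Fin.sum_univ_two, ee_ff_add, h3]

/-- the index type -/
abbrev Idx : Type u := ULift.{u} (ℤ × Fin 2)

/-- The matrix of the differential of the Tate resolution. -/
noncomputable def tmat (i : Idx.{u}) : Idx.{u} →₀ EE K :=
  ∑ r', Finsupp.single ⟨(i.down.1 - 1, r')⟩ (ce K i.down.2 r') +
    ∑ r', Finsupp.single ⟨(i.down.1, r')⟩ (cf K i.down.2 r')

theorem tmat_apply (i j : Idx.{u}) : tmat K i j =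
    (if i.down.1 - 1 = j.down.1 then ce K i.down.2 j.down.2 else 0) +
      (if i.down.1 = j.down.1 then cf K i.down.2 j.down.2 else 0) := by
  obtain ⟨⟨a, r⟩⟩ := i
  obtain ⟨⟨b, s⟩⟩ := j
  simp only [tmat, Finsupp.add_apply, Finsupp.finsetSum_apply, Finsupp.single_apply,
    ULift.up.injEq, Prod.mk.injEq]
  congr 1
  · by_cases h : a - 1 = b
    · simp [h]
    · simp [h]
  · by_cases h : a = b
    · simp [h]
    · simp [h]

/-- The general form of maps given by the matrix `tmat`. -/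
theorem lsum_tmat {N : Type u} [AddCommGroup N] [Module K N] (Φ : EE K →ₗ[K] (N →ₗ[K] N))
    (j : Idx.{u}) (u : Idx.{u} →₀ N) :
    Finsupp.lsum K (fun i => Φ (tmat K i j)) u =
      ∑ r, Φ (ce K r j.down.2) (u ⟨(j.down.1 + 1, r)⟩) +
        ∑ r, Φ (cf K r j.down.2) (u ⟨(j.down.1, r)⟩) := by
  obtain ⟨⟨b, s⟩⟩ := j
  induction u using Finsupp.induction_linear with
  | zero => simp
  | add u v hu hv =>
    rw [map_add, hu, hv]
    simp only [Finsupp.add_apply, map_add, Finset.sum_add_distrib]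
    abel
  | single i n =>
    obtain ⟨⟨a, r⟩⟩ := i
    rw [Finsupp.lsum_single, tmat_apply, map_add, LinearMap.add_apply]
    simp only [Finsupp.single_apply, ULift.up.injEq, Prod.mk.injEq]
    congr 1
    · by_cases h : a - 1 = b
      · have h' : a = b + 1 := by omega
        simp [h', Finset.sum_ite_eq, apply_ite]
      · have h' : ¬ a = b + 1 := by omega
        simp [h, h']
    · by_cases h : a = b
      · simp [h, apply_ite]
      · simp [h]

theorem ee_mem_Edeg (i : Fin 2) : ee K i ∈ Edeg K (-1, 0) :=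
  Submodule.subset_span ⟨[i], [], by simp⟩

theorem ff_mem_Edeg (i : Fin 2) : ff K i ∈ Edeg K (0, -1) :=
  Submodule.subset_span ⟨[], [i], by simp⟩

theorem ce_mem_Edeg (r r' : Fin 2) : ce K r r' ∈ Edeg K (-1, 0) := by
  unfold ce
  split_ifs
  · exact ee_mem_Edeg K 0
  · exact ee_mem_Edeg K 1
  · exact Submodule.zero_mem _

theorem cf_mem_Edeg (r r' : Fin 2) : cf K r r' ∈ Edeg K (0, -1) := by
  unfold cf
  split_ifs
  · exact ff_mem_Edeg K 0
  · exact ff_mem_Edeg K 1
  · exact Submodule.zero_mem _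

/-- The Tate resolution. -/
noncomputable def TT : FreeCx K where
  idx _ := Idx.{u}
  deg d i := (i.down.1, -d - i.down.1)
  mat _ i := tmat K i
  homog := by
    rintro d ⟨⟨a, r⟩⟩ ⟨⟨b, s⟩⟩
    rw [tmat_apply]
    dsimp only
    by_cases h1 : a - 1 = b
    · have h2 : ¬ a = b := by omega
      rw [if_pos h1, if_neg h2, add_zero]
      have : ((b, -(d + 1) - b) : ℤ × ℤ) - (a, -d - a) = (-1, 0) := by
        rw [Prod.mk_sub_mk]
        congr 1 <;> omega
      rw [this]
      exact ce_mem_Edeg K r s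
    · by_cases h2 : a = b
      · rw [if_neg h1, if_pos h2, zero_add]
        have : ((b, -(d + 1) - b) : ℤ × ℤ) - (a, -d - a) = (0, -1) := by
          rw [Prod.mk_sub_mk]
          congr 1 <;> omega
        rw [this]
        exact cf_mem_Edeg K r s
      · rw [if_neg h1, if_neg h2, add_zero]
        exact Submodule.zero_mem _
  sq := by
    rintro d ⟨⟨a, r⟩⟩ ⟨⟨b, s⟩⟩
    have h := lsum_tmat K (LinearMap.mul K (EE K)) (⟨(b, s)⟩ : Idx.{u})
      (tmat K (⟨(a, r)⟩ : Idx.{u}))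
    rw [Finsupp.coe_lsum] at h
    refine h.trans ?_
    simp only [LinearMap.mul_apply', tmat_apply]
    have h1 : ∀ x : EE K, x * 0 = 0 := mul_zero
    by_cases h2 : a - 1 = b + 1
    · have h3 : ¬ a = b + 1 := by omega
      have h4 : ¬ a - 1 = b := by omega
      have h5 : ¬ a = b := by omega
      simp only [if_pos h2, if_neg h3, if_neg h4, if_neg h5, add_zero, mul_zero,
        Finset.sum_const_zero]
      exact ce_ce K r s
    · by_cases h3 : a = b + 1
      · have h4 : a - 1 = b := by omega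
        have h5 : ¬ a = b := by omega
        simp only [if_neg h2, if_pos h3, if_pos h4, if_neg h5, add_zero, zero_add]
        exact ce_cf K r s
      · have h4 : ¬ a - 1 = b := by omega
        by_cases h5 : a = b
        · simp only [if_neg h2, if_neg h3, if_neg h4, if_pos h5, add_zero, zero_add, mul_zero,
            Finset.sum_const_zero]
          exact cf_cf K r s
        · simp only [if_neg h2, if_neg h3, if_neg h4, if_neg h5, add_zero, mul_zero,
            Finset.sum_const_zero]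

theorem TT_diff (d : ℤ) (j : Idx.{u}) (u : Idx.{u} →₀ EE K) :
    (TT K).diff d u j = ∑ r, ce K r j.down.2 * (u ⟨(j.down.1 + 1, r)⟩) +
        ∑ r, cf K r j.down.2 * (u ⟨(j.down.1, r)⟩) :=
  lsum_tmat K (LinearMap.mul K (EE K)) j u

theorem TT_Udiff (d : ℤ) (j : Idx.{u}) (u : Idx.{u} →₀ UU K) :
    (TT K).Udiff d u j = ∑ r, contract K (ce K r j.down.2) (u ⟨(j.down.1 + 1, r)⟩) +
        ∑ r, contract K (cf K r j.down.2) (u ⟨(j.down.1, r)⟩) :=
  lsum_tmat K (contract K).toLinearMap j u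

theorem TT_minimal : (TT K).IsMinimal := by
  rintro d ⟨⟨a, r⟩⟩ ⟨⟨b, s⟩⟩
  have he : ∀ i, ee K i ∈ Ideal.span (Set.range (gen K)) := fun i =>
    Ideal.subset_span ⟨Sum.inl i, rfl⟩
  have hf : ∀ i, ff K i ∈ Ideal.span (Set.range (gen K)) := fun i =>
    Ideal.subset_span ⟨Sum.inr i, rfl⟩
  change tmat K _ _ ∈ Ideal.span (Set.range (gen K))
  rw [tmat_apply]
  unfold ce cf
  dsimp only
  refine Ideal.add_mem _ ?_ ?_
  all_goals
    split_ifs <;> first | exact he _ | exact hf _ | exact Ideal.zero_mem _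

theorem TT_double : (TT K).HasDoubleComplexStructure := by
  refine ⟨fun _ i => - i.down.1, ?_⟩
  rintro d ⟨⟨a, r⟩⟩ ⟨⟨b, s⟩⟩
  change (tmat K _ _ ≠ 0 → _) ∧ (_ → tmat K _ _ ∈ _) ∧ (_ → tmat K _ _ ∈ _)
  rw [tmat_apply]
  dsimp only
  refine ⟨fun h => ?_, fun h => ?_, fun h => ?_⟩
  · by_contra hne
    apply h
    rw [if_neg, if_neg, add_zero]
    · intro h'
      apply hne
      right
      omega
    · intro h'
      apply hne
      left
      omega
  · rw [if_pos (by omega), if_neg (by omega), add_zero]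
    unfold ce
    split_ifs
    · exact Algebra.subset_adjoin ⟨0, rfl⟩
    · exact Algebra.subset_adjoin ⟨1, rfl⟩
    · exact zero_mem _
  · rw [if_neg (by omega), if_pos (by omega), zero_add]
    unfold cf
    split_ifs
    · exact Algebra.subset_adjoin ⟨0, rfl⟩
    · exact Algebra.subset_adjoin ⟨1, rfl⟩
    · exact zero_mem _

/-- the contraction with a functional -/
noncomputable def ctr (θ : Module.Dual K (VV K)) : EE K →ₗ[K] EE K :=
  CliffordAlgebra.contractLeft (Q := (0 : QuadraticForm K (VV K))) θ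

theorem ctr_gen_mul (θ : Module.Dual K (VV K)) (s : Fin 2 ⊕ Fin 2) (x : EE K) :
    ctr K θ (gen K s * x) = θ (bas K s) • x - gen K s * ctr K θ x :=
  CliffordAlgebra.contractLeft_ι_mul (Q := (0 : QuadraticForm K (VV K))) _ _ _

/-- the functional dual to `e_0` -/
def θe : Module.Dual K (VV K) where
  toFun v := v (Sum.inl 0)
  map_add' _ _ := rfl
  map_smul' _ _ := rfl

/-- the functional dual to `f_0` -/
def θf : Module.Dual K (VV K) where
  toFun v := v (Sum.inr 0)
  map_add' _ _ := rfl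
  map_smul' _ _ := rfl

theorem ctr_e_ce (r r' : Fin 2) (x : EE K) :
    ctr K (θe K) (ce K r r' * x) = (if r' = r then x else 0) - ce K r r' * ctr K (θe K) x := by
  unfold ce
  split_ifs
  · rw [ee, ctr_gen_mul]
    simp [θe, bas]
  · rw [ee, ctr_gen_mul]
    simp [θe, bas]
  · simp

theorem ctr_e_cf (r r' : Fin 2) (x : EE K) :
    ctr K (θe K) (cf K r r' * x) = - (cf K r r' * ctr K (θe K) x) := by
  unfold cf
  split_ifs
  · rw [ff, ctr_gen_mul]
    simp [θe, bas]
  · rw [ff, ctr_gen_mul]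
    simp [θe, bas]
  · simp

theorem ctr_f_cf (r r' : Fin 2) (x : EE K) :
    ctr K (θf K) (cf K r r' * x) = (if r' = r then x else 0) - cf K r r' * ctr K (θf K) x := by
  unfold cf
  split_ifs
  · rw [ff, ctr_gen_mul]
    simp [θf, bas]
  · rw [ff, ctr_gen_mul]
    simp [θf, bas]
  · simp

theorem ctr_f_ce (r r' : Fin 2) (x : EE K) :
    ctr K (θf K) (ce K r r' * x) = - (ce K r r' * ctr K (θf K) x) := by
  unfold ce
  split_ifs
  · rw [ee, ctr_gen_mul]
    simp [θf, bas]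
  · rw [ee, ctr_gen_mul]
    simp [θf, bas]
  · simp

/-- shifting the first coordinate of the index by `s` -/
def shiftEquiv (s : ℤ) : Idx.{u} ≃ Idx.{u} where
  toFun i := ⟨(i.down.1 + s, i.down.2)⟩
  invFun i := ⟨(i.down.1 - s, i.down.2)⟩
  left_inv := by
    rintro ⟨⟨a, r⟩⟩
    simp
  right_inv := by
    rintro ⟨⟨a, r⟩⟩
    simp

/-- the homotopy -/
noncomputable def hh (θ : Module.Dual K (VV K)) (s : ℤ) (z : Idx.{u} →₀ EE K) : Idx.{u} →₀ EE K :=
  (Finsupp.equivMapDomain (shiftEquiv s) z).mapRange (ctr K θ) (map_zero _)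

theorem hh_apply (θ : Module.Dual K (VV K)) (s : ℤ) (z : Idx.{u} →₀ EE K) (a : ℤ) (r : Fin 2) :
    hh K θ s z ⟨(a, r)⟩ = ctr K θ (z ⟨(a - s, r)⟩) := rfl

theorem diff_he (d : ℤ) (z : Idx.{u} →₀ EE K) (a : ℤ) (r : Fin 2) :
    (TT K).diff d (hh K (θe K) 1 z) (⟨(a, r)⟩ : Idx.{u}) = z ⟨(a, r)⟩ -
      ctr K (θe K) ((TT K).diff (d + 1) z (⟨(a - 1, r)⟩ : Idx.{u})) := by
  rw [TT_diff, TT_diff]
  simp only [hh_apply, map_add, map_sum, ctr_e_ce, ctr_e_cf, Finset.sum_sub_distrib,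
    Finset.sum_neg_distrib, Finset.sum_ite_eq, Finset.mem_univ, if_true, add_sub_cancel_right,
    sub_add_cancel]
  abel

theorem diff_hf (d : ℤ) (z : Idx.{u} →₀ EE K) (a : ℤ) (r : Fin 2) :
    (TT K).diff d (hh K (θf K) 0 z) (⟨(a, r)⟩ : Idx.{u}) = z ⟨(a, r)⟩ -
      ctr K (θf K) ((TT K).diff (d + 1) z (⟨(a, r)⟩ : Idx.{u})) := by
  rw [TT_diff, TT_diff]
  simp only [hh_apply, map_add, map_sum, ctr_f_ce, ctr_f_cf, Finset.sum_sub_distrib,
    Finset.sum_neg_distrib, Finset.sum_ite_eq, Finset.mem_univ, if_true, sub_zero]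
  abel

theorem TT_exact_e (A : Set (ℤ × ℤ)) (hA : ∀ a b b' : ℤ, (a, b) ∈ A → (b', b) ∈ A) :
    (TT K).StrandExact A := by
  intro d z hz hd
  refine ⟨hh K (θe K) 1 z, ?_, ?_⟩
  · rintro ⟨⟨a, r⟩⟩ h
    have h1 : z ⟨(a - 1, r)⟩ ≠ 0 := by
      intro h0
      apply h
      exact (hh_apply K (θe K) 1 z a r).trans ((congrArg _ h0).trans (map_zero _))
    have h2 := hz _ h1
    have h3 := hA _ _ a h2
    change (a, -d - a) ∈ A
    have h4 : -d - a = -(d + 1) - (a - 1) := by omega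
    rw [h4]
    exact h3
  · rintro ⟨⟨a, r⟩⟩ h
    have h3 := hA _ _ (a - 1) h
    have h5 : (TT K).diff (d + 1) z (⟨(a - 1, r)⟩ : Idx.{u}) = 0 := by
      apply hd
      change (a - 1, -(d + 1 + 1) - (a - 1)) ∈ A
      have h4 : -(d + 1 + 1) - (a - 1) = -(d + 1) - a := by omega
      rw [h4]
      exact h3
    refine (diff_he K d z a r).trans ?_
    rw [h5, map_zero, sub_zero]
    rfl

theorem TT_exact_f (A : Set (ℤ × ℤ)) (hA : ∀ a b b' : ℤ, (a, b) ∈ A → (a, b') ∈ A) :
    (TT K).StrandExact A := by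
  intro d z hz hd
  refine ⟨hh K (θf K) 0 z, ?_, ?_⟩
  · rintro ⟨⟨a, r⟩⟩ h
    have h1 : z ⟨(a - 0, r)⟩ ≠ 0 := by
      intro h0
      apply h
      exact (hh_apply K (θf K) 0 z a r).trans ((congrArg _ h0).trans (map_zero _))
    have h2 := hz _ h1
    rw [sub_zero] at h2
    exact hA _ _ _ h2
  · rintro ⟨⟨a, r⟩⟩ h
    have h5 : (TT K).diff (d + 1) z (⟨(a, r)⟩ : Idx.{u}) = 0 := hd _ (hA _ _ _ h)
    refine (diff_hf K d z a r).trans ?_
    rw [h5, map_zero, sub_zero]
    rfl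

theorem TT_tate : (TT K).IsTate := by
  refine ⟨?_, TT_exact_e K _ fun _ _ _ _ => trivial, fun c => TT_exact_f K _ fun a b b' h => h,
    fun c => TT_exact_e K _ fun a b b' h => h⟩
  intro a
  have h : {p : Σ d, (TT K).idx d | (TT K).deg p.1 p.2 = a} ⊆
      Set.range (fun r : Fin 2 => (⟨-(a.1 + a.2), (⟨(a.1, r)⟩ : Idx.{u})⟩ :
        Σ d, (TT K).idx d)) := by
    rintro ⟨d, ⟨⟨j, r⟩⟩⟩ h
    have h' : ((j, -d - j) : ℤ × ℤ) = a := h
    have h1 : a.1 = j := by rw [← h']
    have h2 : a.2 = -d - j := by rw [← h']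
    refine ⟨r, ?_⟩
    have h3 : -(a.1 + a.2) = d := by omega
    exact Sigma.ext h3 (heq_of_eq (congrArg (fun t => (⟨(t, r)⟩ : Idx.{u})) h1))
  exact (Set.finite_range _).subset h

end Pool.Agent.MP_df5a96_ag
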