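import Mathlib
import Pool.Agent.MP_df5a96_ag.Tate

set_option autoImplicit false

open TensorProduct

universe u

namespace Pool.Agent.MP_df5a96_ag

variable (K : Type u) [Field K]

/-- the variables -/
noncomputable abbrev X0 : SS K := MvPolynomial.X (Sum.inl 0)
noncomputable abbrev X1 : SS K := MvPolynomial.X (Sum.inl 1)
noncomputable abbrev Y0 : SS K := MvPolynomial.X (Sum.inr 0)
noncomputable abbrev Y1 : SS K := MvPolynomial.X (Sum.inr 1)

variable {K}

theorem X_mul_mem (i : Fin 2 ⊕ Fin 2) {f : SS K} {g : ℤ × ℤ}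
    (hf : f ∈ MvPolynomial.weightedHomogeneousSubmodule K wt g) :
    MvPolynomial.X i * f ∈ MvPolynomial.weightedHomogeneousSubmodule K wt (wt i + g) :=
  (MvPolynomial.isWeightedHomogeneous_X K wt i).mul hf

theorem of_X_mul_mem (i : Fin 2 ⊕ Fin 2) {f : SS K} {g : ℤ × ℤ}
    (hf : MvPolynomial.X i * f ∈ MvPolynomial.weightedHomogeneousSubmodule K wt (wt i + g)) :
    f ∈ MvPolynomial.weightedHomogeneousSubmodule K wt g := by
  intro s hs
  have h1 : MvPolynomial.coeff (Finsupp.single i 1 + s) (MvPolynomial.X i * f) ≠ 0 := by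
    rwa [add_comm, add_comm s, MvPolynomial.coeff_X_mul]
  have h2 := hf h1
  rw [map_add, Finsupp.weight_single, one_smul] at h2
  exact add_left_cancel h2

theorem X1_mul_mem {f : SS K} {p q : ℤ} (hf : f ∈ forms K (p - 1) q) : X1 K * f ∈ forms K p q := by
  have := X_mul_mem (Sum.inl 1) hf
  rwa [show wt (Sum.inl 1) + (p - 1, q) = (p, q) by simp [wt]] at this

theorem X0_mul_mem {f : SS K} {p q : ℤ} (hf : f ∈ forms K (p - 1) q) : X0 K * f ∈ forms K p q := by
  have := X_mul_mem (Sum.inl 0) hf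
  rwa [show wt (Sum.inl 0) + (p - 1, q) = (p, q) by simp [wt]] at this

theorem Y1_mul_mem {f : SS K} {p q : ℤ} (hf : f ∈ forms K p (q - 1)) : Y1 K * f ∈ forms K p q := by
  have := X_mul_mem (Sum.inr 1) hf
  rwa [show wt (Sum.inr 1) + (p, q - 1) = (p, q) by simp [wt]] at this

theorem Y0_mul_mem {f : SS K} {p q : ℤ} (hf : f ∈ forms K p (q - 1)) : Y0 K * f ∈ forms K p q := by
  have := X_mul_mem (Sum.inr 0) hf
  rwa [show wt (Sum.inr 0) + (p, q - 1) = (p, q) by simp [wt]] at this

theorem of_X1_mul_mem {f : SS K} {p q : ℤ} (hf : X1 K * f ∈ forms K p q) :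
    f ∈ forms K (p - 1) q := by
  apply of_X_mul_mem (Sum.inl 1)
  rwa [show wt (Sum.inl 1) + (p - 1, q) = (p, q) by simp [wt]]

theorem of_Y1_mul_mem {f : SS K} {p q : ℤ} (hf : Y1 K * f ∈ forms K p q) :
    f ∈ forms K p (q - 1) := by
  apply of_X_mul_mem (Sum.inr 1)
  rwa [show wt (Sum.inr 1) + (p, q - 1) = (p, q) by simp [wt]]

/-- the syzygies of `x_1, y_1` -/
theorem syz {a b : SS K} (h : X1 K * a + Y1 K * b = 0) :
    ∃ w, a = -(Y1 K * w) ∧ b = X1 K * w := by
  have h1 : X1 K ∣ Y1 K * b := ⟨-a, by linear_combination h⟩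
  rw [MvPolynomial.X_dvd_mul_iff] at h1
  rcases h1 with h1 | ⟨w, rfl⟩
  · rw [MvPolynomial.X_dvd_X] at h1
    cases h1
  · refine ⟨w, ?_, rfl⟩
    have h2 : X1 K * (a + Y1 K * w) = 0 := by linear_combination h
    rcases mul_eq_zero.1 h2 with h3 | h3
    · exact absurd h3 (MvPolynomial.X_ne_zero _)
    · linear_combination h3

theorem weight_wt (s : (Fin 2 ⊕ Fin 2) →₀ ℕ) : Finsupp.weight wt s =
    ((s (Sum.inl 0) : ℤ) + s (Sum.inl 1), (s (Sum.inr 0) : ℤ) + s (Sum.inr 1)) := by
  rw [Finsupp.weight_apply, Finsupp.sum_fintype _ _ (by simp)]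
  refine Prod.ext ?_ ?_ <;>
    simp [wt, Fintype.sum_sum_type, Fin.sum_univ_two]

/-- decomposition of forms -/
theorem form_decomp {f : SS K} {p q : ℕ} (hf : f ∈ forms K p q) :
    ∃ (α : K) (a b : SS K), a ∈ forms K (p - 1) q ∧ b ∈ forms K p (q - 1) ∧
      f = MvPolynomial.C α * (X0 K ^ p * Y0 K ^ q) + X1 K * a + Y1 K * b := by
  refine MvPolynomial.IsWeightedHomogeneous.induction_on (w := wt) (m := ((p : ℤ), (q : ℤ)))
    (motive := fun f _ => ∃ (α : K) (a b : SS K), a ∈ forms K (p - 1) q ∧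
      b ∈ forms K p (q - 1) ∧
      f = MvPolynomial.C α * (X0 K ^ p * Y0 K ^ q) + X1 K * a + Y1 K * b) ?_ ?_ ?_ hf
  · exact ⟨0, 0, 0, Submodule.zero_mem _, Submodule.zero_mem _, by simp⟩
  · rintro f g _ _ ⟨α, a, b, ha, hb, rfl⟩ ⟨α', a', b', ha', hb', rfl⟩
    exact ⟨α + α', a + a', b + b', Submodule.add_mem _ ha ha', Submodule.add_mem _ hb hb', by
      rw [map_add]; ring⟩
  · intro s r hs
    have hw := hs
    rw [weight_wt, Prod.mk.injEq] at hs
    by_cases h1 : s (Sum.inl 1) = 0
    · by_cases h2 : s (Sum.inr 1) = 0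
      · refine ⟨r, 0, 0, Submodule.zero_mem _, Submodule.zero_mem _, ?_⟩
        have h3 : s (Sum.inl 0) = p := by omega
        have h4 : s (Sum.inr 0) = q := by omega
        rw [mul_zero, mul_zero, add_zero, add_zero, MvPolynomial.monomial_eq,
          Finsupp.prod_fintype _ _ (by simp)]
        simp [Fintype.prod_sum_type, Fin.prod_univ_two, h1, h2, h3, h4]
      · have h3 : s = Finsupp.single (Sum.inr 1) 1 + (s - Finsupp.single (Sum.inr 1) 1) := by
          rw [add_comm, tsub_add_cancel_of_le]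
          simpa [Nat.one_le_iff_ne_zero] using h2
        have h4 : MvPolynomial.monomial s r =
            Y1 K * MvPolynomial.monomial (s - Finsupp.single (Sum.inr 1) 1) r := by
          change MvPolynomial.monomial s r =
            MvPolynomial.monomial (Finsupp.single (Sum.inr 1) 1) 1 *
              MvPolynomial.monomial (s - Finsupp.single (Sum.inr 1) 1) r
          rw [MvPolynomial.monomial_mul, one_mul, ← h3]
        refine ⟨0, 0, MvPolynomial.monomial (s - Finsupp.single (Sum.inr 1) 1) r,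
          Submodule.zero_mem _, ?_, ?_⟩
        · apply of_Y1_mul_mem
          rw [← h4]
          exact MvPolynomial.isWeightedHomogeneous_monomial wt s r hw
        · rw [map_zero, zero_mul, mul_zero, zero_add, zero_add]
          exact h4
    · have h3 : s = Finsupp.single (Sum.inl 1) 1 + (s - Finsupp.single (Sum.inl 1) 1) := by
        rw [add_comm, tsub_add_cancel_of_le]
        simpa [Nat.one_le_iff_ne_zero] using h1
      have h4 : MvPolynomial.monomial s r =
          X1 K * MvPolynomial.monomial (s - Finsupp.single (Sum.inl 1) 1) r := by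
        change MvPolynomial.monomial s r =
          MvPolynomial.monomial (Finsupp.single (Sum.inl 1) 1) 1 *
            MvPolynomial.monomial (s - Finsupp.single (Sum.inl 1) 1) r
        rw [MvPolynomial.monomial_mul, one_mul, ← h3]
      refine ⟨0, MvPolynomial.monomial (s - Finsupp.single (Sum.inl 1) 1) r, 0, ?_,
        Submodule.zero_mem _, ?_⟩
      · apply of_X1_mul_mem
        rw [← h4]
        exact MvPolynomial.isWeightedHomogeneous_monomial wt s r hw
      · rw [map_zero, zero_mul, mul_zero, zero_add, add_zero]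
        exact h4

variable (K)

/-- the coefficients of the differential of `U(T)` -/
noncomputable def κ (r r' : Fin 2) : SS K := if r' = r then X1 K else if r = 0 then -X0 K else 0

/-- the coefficients of the differential of `U(T)` -/
noncomputable def μ (r r' : Fin 2) : SS K := if r' = r then Y1 K else if r = 0 then -Y0 K else 0

theorem contract_gen (s : Fin 2 ⊕ Fin 2) (n : UU K) : contract K (gen K s) n = cgen K s n := by
  rw [contract_gen_eq]
  rfl

theorem contract_ee (i : Fin 2) (n : UU K) (a b : Fin 2) :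
    contract K (ee K i) n a b =
      if a = 0 then (if i = 0 then X1 K else -X0 K) * n 1 b else 0 := by
  rw [ee, contract_gen]
  rfl

theorem contract_ff (i : Fin 2) (n : UU K) (a b : Fin 2) :
    contract K (ff K i) n a b =
      if b = 0 then (-1) ^ (a : ℕ) * ((if i = 0 then Y1 K else -Y0 K) * n a 1) else 0 := by
  rw [ff, contract_gen]
  rfl

theorem UU_zero_apply (a b : Fin 2) : (0 : UU K) a b = 0 := rfl

theorem UU_add_apply (n n' : UU K) (a b : Fin 2) : (n + n') a b = n a b + n' a b := rfl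

theorem contract_ce (r r' : Fin 2) (n : UU K) (a b : Fin 2) :
    contract K (ce K r r') n a b = if a = 0 then κ K r r' * n 1 b else 0 := by
  unfold ce κ
  split_ifs <;> simp_all [contract_ee, UU_zero_apply]

theorem contract_cf (r r' : Fin 2) (n : UU K) (a b : Fin 2) :
    contract K (cf K r r') n a b = if b = 0 then (-1) ^ (a : ℕ) * (μ K r r' * n a 1) else 0 := by
  unfold cf μ
  split_ifs <;> simp_all [contract_ff, UU_zero_apply]

theorem TT_Udiff' (d : ℤ) (j : ℤ) (r' : Fin 2) (u : Idx.{u} →₀ UU K) (a b : Fin 2) :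
    (TT K).Udiff d u (⟨(j, r')⟩ : Idx.{u}) a b =
      (if a = 0 then ∑ r, κ K r r' * u ⟨(j + 1, r)⟩ 1 b else 0) +
      (if b = 0 then (-1) ^ (a : ℕ) * ∑ r, μ K r r' * u ⟨(j, r)⟩ a 1 else 0) := by
  rw [TT_Udiff]
  simp only [Fin.sum_univ_two, UU_add_apply, contract_ce, contract_cf]
  split_ifs <;> ring

end Pool.Agent.MP_df5a96_ag
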