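import Mathlib
import Pool.Agent.MP_df5a96_ag.Poly

set_option autoImplicit false

open TensorProduct

universe u

namespace Pool.Agent.MP_df5a96_ag

variable {K : Type u} [Field K]

/-- the terms of `U(T(c))` -/
def Term (c : ℤ × ℤ) (d p q : ℤ) (u : Idx.{u} →₀ UU K) : Prop := (TT K).InTerm c d p q u

/-- the cycles of `U(T(c))` -/
def Cyc (c : ℤ × ℤ) (d p q : ℤ) (u : Idx.{u} →₀ UU K) : Prop := (TT K).IsCycle c d p q u

/-- the boundaries of `U(T(c))` -/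
def IsB (c : ℤ × ℤ) (d p q : ℤ) (u : Idx.{u} →₀ UU K) : Prop := (TT K).IsBoundary c d p q u

theorem Term_zero {c : ℤ × ℤ} {d p q : ℤ} : Term c d p q (0 : Idx.{u} →₀ UU K) :=
  fun _ _ _ => ⟨fun _ => Submodule.zero_mem _, fun _ => rfl⟩

theorem Term_add {c : ℤ × ℤ} {d p q : ℤ} {u v : Idx.{u} →₀ UU K} (hu : Term c d p q u)
    (hv : Term c d p q v) : Term c d p q (u + v) := by
  intro i a b
  have h : (u + v) i a b = u i a b + v i a b := rfl
  refine ⟨fun hg => ?_, fun hg => ?_⟩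
  · have h3 := Submodule.add_mem _ ((hu i a b).1 hg) ((hv i a b).1 hg)
    exact h3
  · have h1 : u i a b = 0 := (hu i a b).2 hg
    have h2 : v i a b = 0 := (hv i a b).2 hg
    exact h.trans ((congrArg₂ (· + ·) h1 h2).trans (add_zero _))

theorem Uterm_zero {c : ℤ × ℤ} {d p q : ℤ} {u : Idx.{u} →₀ UU K} (hu : Term c d p q u)
    (j : ℤ) (r a b : Fin 2)
    (h : ¬ (((a : ℕ) : ℤ) = j + c.1 ∧ ((b : ℕ) : ℤ) = -d - j + c.2)) :
    u ⟨(j, r)⟩ a b = 0 := by
  refine ((hu (⟨(j, r)⟩ : Idx.{u})) a b).2 ?_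
  intro h'
  apply h
  exact Prod.mk.inj h'

theorem Uterm_mem {c : ℤ × ℤ} {d p q : ℤ} {u : Idx.{u} →₀ UU K} (hu : Term c d p q u)
    (j : ℤ) (r a b : Fin 2)
    (h : (((a : ℕ) : ℤ) = j + c.1 ∧ ((b : ℕ) : ℤ) = -d - j + c.2)) :
    u ⟨(j, r)⟩ a b ∈ forms K (p - ((a : ℕ) : ℤ)) (q - ((b : ℕ) : ℤ)) := by
  have h1 := ((hu (⟨(j, r)⟩ : Idx.{u})) a b).1 (Prod.ext h.1 h.2)
  have h2 : (((TT K).deg d (⟨(j, r)⟩ : Idx.{u}) + c).1) = ((a : ℕ) : ℤ) := h.1.symm
  have h3 : (((TT K).deg d (⟨(j, r)⟩ : Idx.{u}) + c).2) = ((b : ℕ) : ℤ) := h.2.symm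
  rwa [h2, h3] at h1

/-- an element of `UU K` concentrated in one place -/
noncomputable def pt (a0 b0 : Fin 2) (f : SS K) : UU K :=
  fun a b => if a = a0 ∧ b = b0 then f else 0

/-- an element concentrated in one place -/
noncomputable def mk1 (j0 : ℤ) (a0 b0 : Fin 2) (f : Fin 2 → SS K) : Idx.{u} →₀ UU K :=
  ∑ r, Finsupp.single ⟨(j0, r)⟩ (pt a0 b0 (f r))

theorem mk1_apply (j0 : ℤ) (a0 b0 : Fin 2) (f : Fin 2 → SS K) (j : ℤ) (r a b : Fin 2) :
    mk1 j0 a0 b0 f ⟨(j, r)⟩ a b = if j = j0 ∧ a = a0 ∧ b = b0 then f r else 0 := by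
  simp only [mk1, Finsupp.finsetSum_apply, Finsupp.single_apply, ULift.up.injEq, Prod.mk.injEq]
  by_cases h : j = j0
  · subst h
    simp only [true_and, Finset.sum_ite_eq', Finset.mem_univ, if_true]
    rfl
  · have h' : ¬ j0 = j := fun e => h e.symm
    simp [h, h', UU_zero_apply]

theorem mk1_mem {c : ℤ × ℤ} {d p q : ℤ} {j0 : ℤ} {a0 b0 : Fin 2} {f : Fin 2 → SS K}
    (h1 : ((a0 : ℕ) : ℤ) = j0 + c.1) (h2 : ((b0 : ℕ) : ℤ) = -d - j0 + c.2)
    (hf : ∀ r, f r ∈ forms K (p - ((a0 : ℕ) : ℤ)) (q - ((b0 : ℕ) : ℤ))) :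
    Term c d p q (mk1 j0 a0 b0 f) := by
  rintro ⟨⟨j, r⟩⟩ a b
  constructor
  · intro h
    have h3 := Prod.mk.inj h
    have h4 : ((a : ℕ) : ℤ) = j + c.1 := h3.1
    have h5 : ((b : ℕ) : ℤ) = -d - j + c.2 := h3.2
    have h6 : (((TT K).deg d (⟨(j, r)⟩ : Idx.{u}) + c).1) = ((a : ℕ) : ℤ) := h4.symm
    have h7 : (((TT K).deg d (⟨(j, r)⟩ : Idx.{u}) + c).2) = ((b : ℕ) : ℤ) := h5.symm
    rw [h6, h7]
    have h9 : mk1 j0 a0 b0 f (⟨(j, r)⟩ : Idx.{u}) a b ∈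
        forms K (p - ((a : ℕ) : ℤ)) (q - ((b : ℕ) : ℤ)) := by
      rw [mk1_apply]
      split_ifs with h8
      · rw [h8.2.1, h8.2.2]
        exact hf r
      · exact Submodule.zero_mem _
    exact h9
  · intro h
    have h9 : mk1 j0 a0 b0 f (⟨(j, r)⟩ : Idx.{u}) a b = 0 := by
      rw [mk1_apply, if_neg]
      rintro ⟨rfl, rfl, rfl⟩
      exact h (Prod.ext h1 h2)
    exact h9

theorem mem_Ucycle {c : ℤ × ℤ} {d p q : ℤ} {u : Idx.{u} →₀ UU K} :
    Cyc c d p q u ↔ Term c d p q u ∧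
      ∀ (j : ℤ) (r' a b : Fin 2),
        (if a = 0 then ∑ r, κ K r r' * u ⟨(j + 1, r)⟩ 1 b else 0) +
        (if b = 0 then (-1) ^ (a : ℕ) * ∑ r, μ K r r' * u ⟨(j, r)⟩ a 1 else 0) = 0 := by
  have h0 : Cyc c d p q u ↔ Term c d p q u ∧
      ∀ j : Idx.{u}, (TT K).Udiff d u j = 0 := Iff.rfl
  rw [h0]
  refine and_congr Iff.rfl ?_
  constructor
  · intro h j r' a b
    have h1 : (TT K).Udiff d u (⟨(j, r')⟩ : Idx.{u}) = 0 := h ⟨(j, r')⟩
    rw [← TT_Udiff' K d j r' u a b, h1]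
    rfl
  · rintro h ⟨⟨j, r'⟩⟩
    funext a b
    rw [TT_Udiff' K d j r' u a b, h]
    rfl

theorem isUboundary_iff {c : ℤ × ℤ} {d p q : ℤ} {u : Idx.{u} →₀ UU K} :
    IsB c d p q u ↔ ∃ w, Term c d p q w ∧
      ∀ (j : ℤ) (r' a b : Fin 2),
        (if a = 0 then ∑ r, κ K r r' * w ⟨(j + 1, r)⟩ 1 b else 0) +
        (if b = 0 then (-1) ^ (a : ℕ) * ∑ r, μ K r r' * w ⟨(j, r)⟩ a 1 else 0) =
          u ⟨(j, r')⟩ a b := by
  constructor
  · rintro ⟨w, hw, h⟩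
    refine ⟨w, hw, fun j r' a b => ?_⟩
    have h1 : (TT K).Udiff d w (⟨(j, r')⟩ : Idx.{u}) = u ⟨(j, r')⟩ := h ⟨(j, r')⟩
    exact (TT_Udiff' K d j r' w a b).symm.trans (congrFun (congrFun h1 a) b)
  · rintro ⟨w, hw, h⟩
    refine ⟨w, hw, ?_⟩
    rintro ⟨⟨j, r'⟩⟩
    change (TT K).Udiff d w (⟨(j, r')⟩ : Idx.{u}) = u ⟨(j, r')⟩
    funext a b
    rw [TT_Udiff' K d j r' w a b, h]

theorem exact_other {c : ℤ × ℤ} {d p q : ℤ}
    (h0 : c.1 + c.2 - (d + 1) ≠ 0) (h1 : c.1 + c.2 - (d + 1) ≠ 1) (h2 : c.1 + c.2 - (d + 1) ≠ 2)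
    {u : Idx.{u} →₀ UU K} (hu : Cyc c (d + 1) p q u) :
    IsB c d p q u := by
  have hz : u = 0 := by
    ext ⟨⟨j, r⟩⟩ : 1
    funext a b
    rw [Uterm_zero (mem_Ucycle.1 hu).1]
    · rfl
    · rintro ⟨h3, h4⟩
      have := a.isLt
      have := b.isLt
      omega
  subst hz
  rw [isUboundary_iff]
  exact ⟨0, Term_zero, fun j r' a b => by simp [UU_zero_apply]⟩

theorem exact_two {c : ℤ × ℤ} {d p q : ℤ} (h2 : c.1 + c.2 - (d + 1) = 2)
    {u : Idx.{u} →₀ UU K} (hu : Cyc c (d + 1) p q u) :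
    IsB c d p q u := by
  rw [mem_Ucycle] at hu
  have e0 := hu.2 (-c.1) 0 0 1
  have e1 := hu.2 (-c.1) 1 0 1
  simp [κ, Fin.sum_univ_two] at e0 e1
  have hz : u = 0 := by
    ext ⟨⟨j, r⟩⟩ : 1
    funext a b
    by_cases h3 : ((a : ℕ) : ℤ) = j + c.1 ∧ ((b : ℕ) : ℤ) = -(d + 1) - j + c.2
    · obtain ⟨h3, h4⟩ := h3
      have ha : a = 1 := by
        apply Fin.ext
        have := a.isLt
        have := b.isLt
        change (a : ℕ) = 1
        omega
      have hb : b = 1 := by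
        apply Fin.ext
        have := a.isLt
        have := b.isLt
        change (b : ℕ) = 1
        omega
      subst ha hb
      have hj : j = -c.1 + 1 := by
        have : (((1 : Fin 2) : ℕ) : ℤ) = 1 := rfl
        omega
      subst hj
      change u ⟨(-c.1 + 1, r)⟩ 1 1 = 0
      have hr : r = 0 ∨ r = 1 := by
        fin_cases r <;> simp
      rcases hr with rfl | rfl
      · exact e0
      · rw [e0] at e1
        simpa using e1
    · rw [Uterm_zero hu.1 j r a b h3]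
      rfl
  subst hz
  rw [isUboundary_iff]
  exact ⟨0, Term_zero, fun j r' a b => by simp [UU_zero_apply]⟩

theorem exact_one {c : ℤ × ℤ} {d p q : ℤ} (h1 : c.1 + c.2 - (d + 1) = 1)
    {u : Idx.{u} →₀ UU K} (hu : Cyc c (d + 1) p q u) :
    IsB c d p q u := by
  rw [mem_Ucycle] at hu
  have e0 := hu.2 (-c.1) 0 0 0
  have e1 := hu.2 (-c.1) 1 0 0
  simp [κ, μ, Fin.sum_univ_two] at e0 e1
  obtain ⟨w0, ha0, hb0⟩ := syz e0
  obtain ⟨w1, ha1, hb1⟩ := syz (a := u ⟨(-c.1 + 1, 1)⟩ 1 0 - Y0 K * w0)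
    (b := u ⟨(-c.1, 1)⟩ 0 1 + X0 K * w0) (by
      rw [ha0, hb0] at e1
      linear_combination e1)
  have hm : ∀ r, u ⟨(-c.1 + 1, r)⟩ 1 0 ∈ forms K (p - 1) q := by
    intro r
    have h := Uterm_mem hu.1 (-c.1 + 1) r 1 0 (by
      constructor
      · change (1 : ℤ) = _
        omega
      · change (0 : ℤ) = _
        omega)
    simpa using h
  have hw0 : w0 ∈ forms K (p - 1) (q - 1) := by
    have h := hm 0
    rw [ha0, Submodule.neg_mem_iff] at h
    exact of_Y1_mul_mem h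
  have hw1 : w1 ∈ forms K (p - 1) (q - 1) := by
    have h : Y1 K * w1 ∈ forms K (p - 1) q := by
      have h2 : Y1 K * w1 = -(u ⟨(-c.1 + 1, 1)⟩ 1 0 - Y0 K * w0) := by rw [ha1]; ring
      rw [h2]
      exact Submodule.neg_mem _ (Submodule.sub_mem _ (hm 1) (Y0_mul_mem hw0))
    exact of_Y1_mul_mem h
  rw [isUboundary_iff]
  refine ⟨mk1 (-c.1 + 1) 1 1 ![w0, w1], ?_, ?_⟩
  · apply mk1_mem
    · change (1 : ℤ) = _
      omega
    · change (1 : ℤ) = _
      omega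
    · intro r
      fin_cases r
      · exact hw0
      · exact hw1
  · intro j r' a b
    simp only [mk1_apply, Fin.sum_univ_two]
    have ha1' : u ⟨(-c.1 + 1, 1)⟩ 1 0 = -(Y1 K * w1) + Y0 K * w0 := by
      linear_combination ha1
    have hb1' : u ⟨(-c.1, 1)⟩ 0 1 = X1 K * w1 - X0 K * w0 := by
      linear_combination hb1
    by_cases h3 : ((a : ℕ) : ℤ) = j + c.1 ∧ ((b : ℕ) : ℤ) = -(d + 1) - j + c.2
    · have hab : (a = 1 ∧ b = 0 ∧ j = -c.1 + 1) ∨ (a = 0 ∧ b = 1 ∧ j = -c.1) := by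
        obtain ⟨h3, h4⟩ := h3
        have ha : a = 0 ∨ a = 1 := by fin_cases a <;> simp
        have hb : b = 0 ∨ b = 1 := by fin_cases b <;> simp
        have z0 : (((0 : Fin 2) : ℕ) : ℤ) = 0 := rfl
        have z1 : (((1 : Fin 2) : ℕ) : ℤ) = 1 := rfl
        rcases ha with rfl | rfl <;> rcases hb with rfl | rfl
        · omega
        · right
          refine ⟨rfl, rfl, by omega⟩
        · left
          refine ⟨rfl, rfl, by omega⟩
        · omega
      have hr : r' = 0 ∨ r' = 1 := by fin_cases r' <;> simp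
      rcases hab with ⟨rfl, rfl, rfl⟩ | ⟨rfl, rfl, rfl⟩
      · rcases hr with rfl | rfl
        · simp [μ, ha0]
        · simp [μ, ha1']
      · rcases hr with rfl | rfl
        · simp [κ, hb0]
        · simp [κ, hb1']
          ring
    · rw [Uterm_zero hu.1 j r' a b h3]
      have ha : a = 0 ∨ a = 1 := by fin_cases a <;> simp
      have hb : b = 0 ∨ b = 1 := by fin_cases b <;> simp
      have z0 : (((0 : Fin 2) : ℕ) : ℤ) = 0 := rfl
      have z1 : (((1 : Fin 2) : ℕ) : ℤ) = 1 := rfl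
      rcases ha with rfl | rfl <;> rcases hb with rfl | rfl
      · simp
      · have hj : ¬ j + 1 = -c.1 + 1 := by omega
        simp [hj]
      · have hj : ¬ j = -c.1 + 1 := by omega
        simp [hj]
      · simp

/-! ### the last term -/

/-- the values of `x_0, x_1` (and of `y_0, y_1`) -/
noncomputable def tv : Fin 2 → DualNumber K := ![1, DualNumber.eps]

/-- evaluation at `(x_0, x_1, y_0, y_1) = (1, ε, 1, ε)` -/
noncomputable def ev : SS K →ₐ[K] DualNumber K := MvPolynomial.aeval (Sum.elim tv tv)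

/-- the component `n 0 0` -/
def comp00 : UU K →ₗ[K] SS K where
  toFun n := n 0 0
  map_add' _ _ := rfl
  map_smul' _ _ := rfl

/-- evaluation of a generator component -/
noncomputable def evAt (c1 : ℤ) (r : Fin 2) : (Idx.{u} →₀ UU K) →ₗ[K] DualNumber K :=
  ev.toLinearMap ∘ₗ comp00 ∘ₗ Finsupp.lapply ⟨(-c1, r)⟩

theorem evAt_apply (c1 : ℤ) (r : Fin 2) (u : Idx.{u} →₀ UU K) :
    evAt c1 r u = ev (u ⟨(-c1, r)⟩ 0 0) := rfl

/-- the map to `K[ε]` -/
noncomputable def LL (c1 : ℤ) : (Idx.{u} →₀ UU K) →ₗ[K] DualNumber K :=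
  evAt c1 0 + LinearMap.mulLeft K DualNumber.eps ∘ₗ evAt c1 1

theorem LL_apply (c1 : ℤ) (u : Idx.{u} →₀ UU K) :
    LL c1 u = ev (u ⟨(-c1, 0)⟩ 0 0) + DualNumber.eps * ev (u ⟨(-c1, 1)⟩ 0 0) := rfl

theorem ev_X0 : ev (X0 K) = 1 := by simp [ev, tv]
theorem ev_Y0 : ev (Y0 K) = 1 := by simp [ev, tv]
theorem ev_X1 : ev (X1 K) = DualNumber.eps := by simp [ev, tv]
theorem ev_Y1 : ev (Y1 K) = DualNumber.eps := by simp [ev, tv]
theorem ev_inl (i : Fin 2) : ev (K := K) (MvPolynomial.X (Sum.inl i)) = tv i := by simp [ev]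
theorem ev_inr (i : Fin 2) : ev (K := K) (MvPolynomial.X (Sum.inr i)) = tv i := by simp [ev]

theorem fst_alg (x : K) : TrivSqZeroExt.fst (algebraMap K (DualNumber K) x) = x := rfl
theorem snd_alg (x : K) : TrivSqZeroExt.snd (algebraMap K (DualNumber K) x) = 0 := rfl

theorem eps_sq : (DualNumber.eps : DualNumber K) * DualNumber.eps = 0 := DualNumber.eps_mul_eps

theorem LL_smul (c1 : ℤ) (f : SS K) (u : Idx.{u} →₀ UU K) :
    LL c1 (f • u) = ev f * LL c1 u := by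
  rw [LL_apply, LL_apply]
  have h : ∀ r : Fin 2, (f • u) ⟨(-c1, r)⟩ 0 0 = f * u ⟨(-c1, r)⟩ 0 0 := fun r => rfl
  rw [h, h, map_mul, map_mul]
  ring

theorem cyc_zero {c : ℤ × ℤ} {d p q : ℤ} (h1 : c.1 + c.2 - (d + 1) = 0)
    {u : Idx.{u} →₀ UU K} (hu : Term c (d + 1) p q u) : Cyc c (d + 1) p q u := by
  rw [mem_Ucycle]
  refine ⟨hu, fun j r' a b => ?_⟩
  have z1 : (((1 : Fin 2) : ℕ) : ℤ) = 1 := rfl
  have h2 : ∀ (j : ℤ) (r b : Fin 2), u ⟨(j, r)⟩ 1 b = 0 := by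
    intro j r b
    apply Uterm_zero hu
    rintro ⟨h3, h4⟩
    omega
  have h3 : ∀ (j : ℤ) (r a : Fin 2), u ⟨(j, r)⟩ a 1 = 0 := by
    intro j r a
    apply Uterm_zero hu
    rintro ⟨h3, h4⟩
    omega
  simp [h2, h3]

theorem LL_boundary {c : ℤ × ℤ} {d p q : ℤ} {u : Idx.{u} →₀ UU K} (hu : IsB c d p q u) :
    LL c.1 u = 0 := by
  rw [isUboundary_iff] at hu
  obtain ⟨w, -, hw⟩ := hu
  rw [LL_apply, ← hw, ← hw]
  simp only [κ, μ, Fin.sum_univ_two]
  simp only [Fin.val_zero, pow_zero, if_true, one_ne_zero, zero_ne_one, if_false, map_add, map_mul,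
    map_neg, ev_X0, ev_X1, ev_Y0, ev_Y1, one_mul, zero_mul, add_zero, neg_mul]
  linear_combination (ev (w ⟨(-c.1 + 1, 1)⟩ 1 0) + ev (w ⟨(-c.1, 1)⟩ 0 1)) * eps_sq (K := K)

theorem LL_zero {c : ℤ × ℤ} {d : ℤ} {p q : ℕ} (h1 : c.1 + c.2 - (d + 1) = 0)
    {u : Idx.{u} →₀ UU K} (hu : Term c (d + 1) p q u) (h : LL c.1 u = 0) :
    IsB c d p q u := by
  have z0 : (((0 : Fin 2) : ℕ) : ℤ) = 0 := rfl
  have z1 : (((1 : Fin 2) : ℕ) : ℤ) = 1 := rfl
  have hm : ∀ r, u ⟨(-c.1, r)⟩ 0 0 ∈ forms K p q := by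
    intro r
    have h := Uterm_mem hu (-c.1) r 0 0 (by omega)
    simpa using h
  obtain ⟨α0, a0, b0, ha0, hb0, e0⟩ := form_decomp (hm 0)
  have hm1 : u ⟨(-c.1, 1)⟩ 0 0 + X0 K * a0 + Y0 K * b0 ∈ forms K p q :=
    Submodule.add_mem _ (Submodule.add_mem _ (hm 1) (X0_mul_mem ha0)) (Y0_mul_mem hb0)
  obtain ⟨α1, a1, b1, ha1, hb1, e1⟩ := form_decomp hm1
  rw [LL_apply] at h
  have e1' : u ⟨(-c.1, 1)⟩ 0 0 = MvPolynomial.C α1 * (X0 K ^ p * Y0 K ^ q) + X1 K * a1 +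
      Y1 K * b1 - X0 K * a0 - Y0 K * b0 := by linear_combination e1
  have hC : ∀ x : K, ev (MvPolynomial.C x) = algebraMap K (DualNumber K) x := by
    intro x
    simp [ev]
  have h2 : algebraMap K (DualNumber K) α0 + DualNumber.eps * algebraMap K (DualNumber K) α1 =
      0 := by
    rw [e0, e1'] at h
    simp only [map_add, map_mul, map_sub, map_pow, ev_X0, ev_X1, ev_Y0, ev_Y1, hC, one_pow,
      mul_one, one_mul] at h
    linear_combination h - (ev a1 + ev b1) * eps_sq (K := K)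
  have hα0 : α0 = 0 := by
    have h3 := congrArg TrivSqZeroExt.fst h2
    simpa [fst_alg] using h3
  have hα1 : α1 = 0 := by
    have h3 := congrArg TrivSqZeroExt.snd h2
    simpa [hα0, fst_alg] using h3
  subst hα0 hα1
  rw [map_zero, zero_mul, zero_add] at e0 e1'
  rw [isUboundary_iff]
  refine ⟨mk1 (-c.1 + 1) 1 0 ![a0, a1] + mk1 (-c.1) 0 1 ![b0, b1], ?_, ?_⟩
  · apply Term_add
    · apply mk1_mem
      · omega
      · omega
      · intro r
        rw [z0, z1, sub_zero]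
        fin_cases r
        · exact ha0
        · exact ha1
    · apply mk1_mem
      · omega
      · omega
      · intro r
        rw [z0, z1, sub_zero]
        fin_cases r
        · exact hb0
        · exact hb1
  · intro j r' a b
    simp only [Finsupp.add_apply, UU_add_apply, mk1_apply, Fin.sum_univ_two]
    have ha : a = 0 ∨ a = 1 := by fin_cases a <;> simp
    have hb : b = 0 ∨ b = 1 := by fin_cases b <;> simp
    have hr : r' = 0 ∨ r' = 1 := by fin_cases r' <;> simp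
    by_cases h3 : ((a : ℕ) : ℤ) = j + c.1 ∧ ((b : ℕ) : ℤ) = -(d + 1) - j + c.2
    · have hab : a = 0 ∧ b = 0 ∧ j = -c.1 := by
        obtain ⟨h3, h4⟩ := h3
        rcases ha with rfl | rfl <;> rcases hb with rfl | rfl
        · refine ⟨rfl, rfl, by omega⟩
        all_goals omega
      obtain ⟨rfl, rfl, rfl⟩ := hab
      rcases hr with rfl | rfl
      · rw [e0]
        simp [κ, μ]
      · rw [e1']
        simp [κ, μ]
        ring
    · rw [Uterm_zero hu j r' a b h3]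
      rcases ha with rfl | rfl <;> rcases hb with rfl | rfl
      · have hj : ¬ j + 1 = -c.1 + 1 := by omega
        have hj' : ¬ j = -c.1 := by omega
        simp [hj']
      · simp
      · simp
      · simp

theorem LL_surj {c : ℤ × ℤ} {d : ℤ} {p q : ℕ} (h1 : c.1 + c.2 - (d + 1) = 0)
    (m : DualNumber K) : ∃ u, Term c (d + 1) p q u ∧ LL c.1 u = m := by
  have z0 : (((0 : Fin 2) : ℕ) : ℤ) = 0 := rfl
  refine ⟨mk1 (-c.1) 0 0 ![MvPolynomial.C m.fst * (X0 K ^ p * Y0 K ^ q),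
    MvPolynomial.C m.snd * (X0 K ^ p * Y0 K ^ q)], ?_, ?_⟩
  · have hX : X0 K ^ p * Y0 K ^ q ∈ forms K p q := by
      have h2 := ((MvPolynomial.isWeightedHomogeneous_X K wt (Sum.inl 0)).pow p).mul
        ((MvPolynomial.isWeightedHomogeneous_X K wt (Sum.inr 0)).pow q)
      have h3 : p • wt (Sum.inl 0) + q • wt (Sum.inr 0) = ((p : ℤ), (q : ℤ)) := by
        refine Prod.ext ?_ ?_ <;> simp [wt]
      rw [h3] at h2
      exact h2
    apply mk1_mem
    · omega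
    · omega
    · intro r
      rw [z0, sub_zero, sub_zero]
      fin_cases r
      · change MvPolynomial.C m.fst * (X0 K ^ p * Y0 K ^ q) ∈ _
        rw [← MvPolynomial.smul_eq_C_mul]
        exact Submodule.smul_mem _ _ hX
      · change MvPolynomial.C m.snd * (X0 K ^ p * Y0 K ^ q) ∈ _
        rw [← MvPolynomial.smul_eq_C_mul]
        exact Submodule.smul_mem _ _ hX
  · rw [LL_apply, mk1_apply, mk1_apply]
    have hC : ∀ x : K, ev (MvPolynomial.C x) = algebraMap K (DualNumber K) x := by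
      intro x
      simp [ev]
    simp only [and_self, if_true, Matrix.cons_val_zero, Matrix.cons_val_one, map_mul, map_pow,
      ev_X0, ev_Y0, one_pow, mul_one, hC]
    ext
    · simp [fst_alg]
    · simp [fst_alg, snd_alg]

end Pool.Agent.MP_df5a96_ag
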