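import Mathlib
import Pool.Agent.MP_df5a96_ag.Monad

set_option autoImplicit false

open TensorProduct CategoryTheory MonoidalCategory Limits

universe u

namespace Pool.Agent.MP_df5a96_ag

variable (K : Type u) [Field K]

/-- the graded pieces -/
noncomputable def Msub (a b : ℤ) : Submodule K (DualNumber K) :=
  if 0 ≤ a ∧ 0 ≤ b then ⊤ else ⊥

variable {K}

theorem mul_mem_Msub {a b a' b' : ℤ} (ha : a ≤ a') (hb : b ≤ b') (t : DualNumber K)
    (m : DualNumber K) (hm : m ∈ Msub K a b) : LinearMap.mulLeft K t m ∈ Msub K a' b' := by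
  unfold Msub at hm ⊢
  split_ifs at hm with h
  · rw [if_pos (by omega)]
    exact Submodule.mem_top
  · rw [Submodule.mem_bot] at hm
    rw [hm, map_zero]
    exact Submodule.zero_mem _

variable (K)

/-- the multiplication maps between the graded pieces -/
noncomputable def mulM {a b a' b' : ℤ} (ha : a ≤ a') (hb : b ≤ b') (t : DualNumber K) :
    Msub K a b →ₗ[K] Msub K a' b' :=
  (LinearMap.mulLeft K t).restrict (mul_mem_Msub ha hb t)

theorem mulM_coe {a b a' b' : ℤ} (ha : a ≤ a') (hb : b ≤ b') (t : DualNumber K)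
    (m : Msub K a b) : ((mulM K ha hb t m : Msub K a' b') : DualNumber K) = t * m := rfl

theorem mulM_mulM {a b a' b' a'' b'' : ℤ} (ha : a ≤ a') (hb : b ≤ b') (ha' : a' ≤ a'')
    (hb' : b' ≤ b'') (t s : DualNumber K) :
    mulM K ha' hb' s ∘ₗ mulM K ha hb t = mulM K (ha.trans ha') (hb.trans hb') (s * t) := by
  apply LinearMap.ext
  intro m
  apply Subtype.ext
  change s * (t * (m : DualNumber K)) = s * t * m
  rw [mul_assoc]

theorem mulM_comm {a b a' b' a'' b'' c' d' : ℤ} (ha : a ≤ a') (hb : b ≤ b') (ha' : a' ≤ a'')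
    (hb' : b' ≤ b'') (ha1 : a ≤ c') (hb1 : b ≤ d') (ha1' : c' ≤ a'') (hb1' : d' ≤ b'')
    (t s : DualNumber K) :
    mulM K ha' hb' s ∘ₗ mulM K ha hb t = mulM K ha1' hb1' t ∘ₗ mulM K ha1 hb1 s := by
  rw [mulM_mulM, mulM_mulM, mul_comm]

/-- The bigraded module of the counterexample. -/
noncomputable def FF : BiMod K where
  M a b := ModuleCat.of K (Msub K a b)
  x i a b := ModuleCat.ofHom (mulM K (by omega) le_rfl (tv i))
  y i a b := ModuleCat.ofHom (mulM K le_rfl (by omega) (tv i))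
  xx i j a b := by
    rw [← ModuleCat.ofHom_comp, ← ModuleCat.ofHom_comp]
    exact congrArg ModuleCat.ofHom (mulM_comm K _ _ _ _ _ _ _ _ _ _)
  yy i j a b := by
    rw [← ModuleCat.ofHom_comp, ← ModuleCat.ofHom_comp]
    exact congrArg ModuleCat.ofHom (mulM_comm K _ _ _ _ _ _ _ _ _ _)
  xy i j a b := by
    rw [← ModuleCat.ofHom_comp, ← ModuleCat.ofHom_comp]
    exact congrArg ModuleCat.ofHom (mulM_comm K _ _ _ _ _ _ _ _ _ _)

theorem mem_Msub {a b : ℤ} (h : 0 ≤ a ∧ 0 ≤ b) (m : DualNumber K) : m ∈ Msub K a b := by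
  rw [Msub, if_pos h]
  exact Submodule.mem_top

theorem FF_fg : (FF K).FG := by
  refine ⟨2, fun _ => (0, 0), fun i => (⟨![1, DualNumber.eps] i, mem_Msub K (by simp) _⟩ :
    Msub K 0 0), ?_⟩
  intro N h0 hx hy
  have h00 : N 0 0 = ⊤ := by
    rw [Submodule.eq_top_iff']
    intro m
    obtain ⟨m, hm⟩ := m
    have e : (⟨m, hm⟩ : Msub K 0 0) =
        TrivSqZeroExt.fst m • (⟨1, mem_Msub K (by simp) _⟩ : Msub K 0 0) +
        TrivSqZeroExt.snd m • (⟨DualNumber.eps, mem_Msub K (by simp) _⟩ : Msub K 0 0) := by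
      apply Subtype.ext
      change m = TrivSqZeroExt.fst m • (1 : DualNumber K) + TrivSqZeroExt.snd m • DualNumber.eps
      ext <;> simp
    change (⟨m, hm⟩ : Msub K 0 0) ∈ N 0 0
    rw [e]
    exact Submodule.add_mem _ (Submodule.smul_mem _ _ (h0 0)) (Submodule.smul_mem _ _ (h0 1))
  have hxx : ∀ a b : ℤ, 0 ≤ a → 0 ≤ b → N a b = ⊤ → N (a + 1) b = ⊤ := by
    intro a b ha hb h
    rw [Submodule.eq_top_iff']
    rintro ⟨m, hm⟩
    have h1 := hx 0 a b (⟨m, mem_Msub K ⟨ha, hb⟩ m⟩ : Msub K a b) (h ▸ Submodule.mem_top)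
    have e : ((FF K).x 0 a b).hom (⟨m, mem_Msub K ⟨ha, hb⟩ m⟩ : Msub K a b) =
        (⟨m, hm⟩ : Msub K (a + 1) b) := by
      apply Subtype.ext
      change tv 0 * m = m
      simp [tv]
    rw [e] at h1
    exact h1
  have hyy : ∀ a b : ℤ, 0 ≤ a → 0 ≤ b → N a b = ⊤ → N a (b + 1) = ⊤ := by
    intro a b ha hb h
    rw [Submodule.eq_top_iff']
    rintro ⟨m, hm⟩
    have h1 := hy 0 a b (⟨m, mem_Msub K ⟨ha, hb⟩ m⟩ : Msub K a b) (h ▸ Submodule.mem_top)
    have e : ((FF K).y 0 a b).hom (⟨m, mem_Msub K ⟨ha, hb⟩ m⟩ : Msub K a b) =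
        (⟨m, hm⟩ : Msub K a (b + 1)) := by
      apply Subtype.ext
      change tv 0 * m = m
      simp [tv]
    rw [e] at h1
    exact h1
  have hnat : ∀ a b : ℕ, N a b = ⊤ := by
    intro a b
    induction a with
    | zero =>
      induction b with
      | zero => exact h00
      | succ b ih => exact_mod_cast hyy 0 b le_rfl (by omega) ih
    | succ a ih => exact_mod_cast hxx a b (by omega) (by omega) ih
  intro a b
  by_cases h : 0 ≤ a ∧ 0 ≤ b
  · obtain ⟨a, rfl⟩ := Int.eq_ofNat_of_zero_le h.1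
    obtain ⟨b, rfl⟩ := Int.eq_ofNat_of_zero_le h.2
    exact hnat a b
  · rw [Submodule.eq_top_iff']
    rintro ⟨m, hm⟩
    have hm' := hm
    rw [Msub, if_neg h, Submodule.mem_bot] at hm'
    subst hm'
    exact Submodule.zero_mem _

/-- The tensor product of nonzero maps is nonzero. -/
theorem tensorHom_eq_zero {A B C D : ModuleCat.{u} K} (f : A ⟶ B) (g : C ⟶ D)
    (h : f ⊗ₘ g = 0) : f = 0 ∨ g = 0 := by
  by_contra hne
  push Not at hne
  obtain ⟨hf, hg⟩ := hne
  obtain ⟨a, ha⟩ : ∃ a, f.hom a ≠ 0 := by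
    by_contra hc
    push Not at hc
    exact hf (ModuleCat.hom_ext (LinearMap.ext hc))
  obtain ⟨c, hc⟩ : ∃ c, g.hom c ≠ 0 := by
    by_contra hc
    push Not at hc
    exact hg (ModuleCat.hom_ext (LinearMap.ext hc))
  have h1 : f.hom a ⊗ₜ[K] g.hom c = 0 := by
    rw [← ModuleCat.MonoidalCategory.tensorHom_tmul f g a c, h]
    rfl
  obtain ⟨φ, hφ⟩ : ∃ φ : Module.Dual K B, φ (f.hom a) ≠ 0 := by
    by_contra hc
    push Not at hc
    exact ha ((Module.forall_dual_apply_eq_zero_iff K _).1 hc)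
  obtain ⟨ψ, hψ⟩ : ∃ ψ : Module.Dual K D, ψ (g.hom c) ≠ 0 := by
    by_contra hc'
    push Not at hc'
    exact hc ((Module.forall_dual_apply_eq_zero_iff K _).1 hc')
  have h2 := congrArg (fun t => TensorProduct.lid K K (TensorProduct.map φ ψ t)) h1
  simp only [TensorProduct.map_tmul, TensorProduct.lid_tmul, map_zero, smul_eq_mul] at h2
  exact mul_ne_zero hφ hψ h2

/-- the composite of the operators on the direct sum -/
noncomputable def bmap {r : ℕ} (P Q : Fin r → GrMod K) (i j : Fin 2) (a b : ℤ) :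
    (⨁ fun t => (P t).M a ⊗ (Q t).M b) ⟶ (⨁ fun t => (P t).M (a + 1) ⊗ (Q t).M (b + 1)) :=
  biproduct.map fun t => (P t).x i a ⊗ₘ (Q t).x j b

theorem dirSum_yx {r : ℕ} (P Q : Fin r → GrMod K) (i j : Fin 2) (a b : ℤ) :
    (dirSum fun t => boxProd (P t) (Q t)).y j a b ≫
      (dirSum fun t => boxProd (P t) (Q t)).x i a (b + 1) = bmap K P Q i j a b := by
  have h : ∀ (A B C : Fin r → ModuleCat.{u} K) (f : ∀ t, A t ⟶ B t) (g : ∀ t, B t ⟶ C t)
      (h : ∀ t, A t ⟶ C t), (∀ t, f t ≫ g t = h t) →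
      biproduct.map f ≫ biproduct.map g = biproduct.map h := by
    intro A B C f g h hfg
    apply biproduct.hom_ext'
    intro t
    rw [biproduct.ι_map_assoc, biproduct.ι_map, biproduct.ι_map, ← Category.assoc, hfg]
  exact h (fun t => (P t).M a ⊗ (Q t).M b) (fun t => (P t).M a ⊗ (Q t).M (b + 1))
    (fun t => (P t).M (a + 1) ⊗ (Q t).M (b + 1)) (fun t => (P t).M a ◁ (Q t).x j b)
    (fun t => (P t).x i a ▷ (Q t).M (b + 1)) (fun t => (P t).x i a ⊗ₘ (Q t).x j b)
    fun t => (MonoidalCategory.tensorHom_def' _ _).symm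

theorem map_inj {r : ℕ} {A B : Fin r → ModuleCat.{u} K} {f g : ∀ t, A t ⟶ B t}
    (h : biproduct.map f = biproduct.map g) (t : Fin r) : f t = g t := by
  have h1 := congrArg (fun g => biproduct.ι A t ≫ g ≫ biproduct.π B t) h
  simpa using h1

theorem bmap_inj {r : ℕ} {P Q : Fin r → GrMod K} {i j i' j' : Fin 2} {a b : ℤ}
    (h : bmap K P Q i j a b = bmap K P Q i' j' a b) (t : Fin r) :
    (P t).x i a ⊗ₘ (Q t).x j b = (P t).x i' a ⊗ₘ (Q t).x j' b :=
  map_inj K (f := fun t => (P t).x i a ⊗ₘ (Q t).x j b)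
    (g := fun t => (P t).x i' a ⊗ₘ (Q t).x j' b) h t

theorem bmap_zero {r : ℕ} {P Q : Fin r → GrMod K} {i j : Fin 2} {a b : ℤ}
    (h : bmap K P Q i j a b = 0) (t : Fin r) : (P t).x i a ⊗ₘ (Q t).x j b = 0 := by
  have h0 : (biproduct.map fun t => (0 : (P t).M a ⊗ (Q t).M b ⟶
      (P t).M (a + 1) ⊗ (Q t).M (b + 1))) = 0 := by
    apply biproduct.hom_ext'
    intro t
    rw [biproduct.ι_map, zero_comp, comp_zero]
  exact map_inj K (f := fun t => (P t).x i a ⊗ₘ (Q t).x j b) (g := fun t => 0)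
    (h.trans h0.symm) t

theorem FF_rel1 (a : ℤ) : (FF K).y 1 a a ≫ (FF K).x 1 a (a + 1) = 0 := by
  apply ModuleCat.hom_ext
  apply LinearMap.ext
  intro m
  apply Subtype.ext
  change tv 1 * (tv 1 * Subtype.val (p := (· ∈ Msub K a a)) m) = 0
  rw [← mul_assoc]
  simp [tv]

theorem FF_rel2 (a : ℤ) : (FF K).y 0 a a ≫ (FF K).x 1 a (a + 1) =
    (FF K).y 1 a a ≫ (FF K).x 0 a (a + 1) := by
  apply ModuleCat.hom_ext
  apply LinearMap.ext
  intro m
  apply Subtype.ext
  change tv 1 * (tv 0 * Subtype.val (p := (· ∈ Msub K a a)) m) =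
    tv 0 * (tv 1 * Subtype.val (p := (· ∈ Msub K a a)) m)
  ring

theorem FF_not_sum : ¬ IsSumOfBoxProducts (FF K) := by
  rintro ⟨r, P, Q, k, φ, hbij, hx, hy⟩
  obtain ⟨a, hk, ha⟩ : ∃ a : ℤ, k ≤ a ∧ 0 ≤ a := ⟨max k 0, le_max_left _ _, le_max_right _ _⟩
  have key : ∀ (i j : Fin 2), ((FF K).y j a a ≫ (FF K).x i a (a + 1)) ≫ φ (a + 1) (a + 1) =
      φ a a ≫ bmap K P Q i j a a := by
    intro i j
    rw [Category.assoc, hx i a (a + 1) hk (by omega), ← Category.assoc, hy j a a hk hk,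
      Category.assoc, dirSum_yx]
    rfl
  have i1 : IsIso (φ a a) := hbij a a hk hk
  have i2 : IsIso (φ (a + 1) (a + 1)) := hbij _ _ (by omega) (by omega)
  -- relations on the direct sum
  have hG1 : bmap K P Q 1 1 a a = 0 := by
    have h1 := key 1 1
    rw [FF_rel1, zero_comp] at h1
    exact (cancel_epi (φ a a)).1 (h1.symm.trans comp_zero.symm)
  have hG2 : bmap K P Q 1 0 a a = bmap K P Q 0 1 a a := by
    have h1 := key 1 0
    have h2 := key 0 1
    rw [FF_rel2] at h1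
    exact (cancel_epi (φ a a)).1 (h1.symm.trans h2)
  -- on each summand
  have hs : ∀ t : Fin r, (P t).x 1 a ⊗ₘ (Q t).x 0 a = 0 := by
    intro t
    rcases tensorHom_eq_zero K _ _ (bmap_zero K hG1 t) with h3 | h3
    · rw [h3, MonoidalPreadditive.zero_tensor]
    · rw [bmap_inj K hG2 t, h3, MonoidalPreadditive.tensor_zero]
  have hG3 : bmap K P Q 1 0 a a = 0 := by
    apply biproduct.hom_ext'
    intro t
    rw [bmap, biproduct.ι_map, hs t, zero_comp, comp_zero]
  -- contradiction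
  have h1 := key 1 0
  rw [hG3] at h1
  replace h1 := h1.trans comp_zero
  have h2 : (FF K).y 0 a a ≫ (FF K).x 1 a (a + 1) = 0 :=
    (cancel_mono (φ (a + 1) (a + 1))).1 (h1.trans zero_comp.symm)
  have h3 := congrArg (fun f => f.hom (⟨1, mem_Msub K ⟨ha, ha⟩ 1⟩ : Msub K a a)) h2
  have h4 : tv 1 * (tv 0 * (1 : DualNumber K)) = 0 := congrArg Subtype.val h3
  have h5 := congrArg TrivSqZeroExt.snd h4
  simp [tv] at h5

/-- the map on homology -/
noncomputable def ππ (c1 : ℤ) (a b : ℤ) : (Idx.{u} →₀ UU K) →ₗ[K] Msub K a b :=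
  LinearMap.codRestrict (Msub K a b) (if 0 ≤ a ∧ 0 ≤ b then LL c1 else 0) (by
    intro u
    split_ifs with h
    · exact mem_Msub K h _
    · exact Submodule.zero_mem _)

theorem ππ_coe {c1 a b : ℤ} (h : 0 ≤ a ∧ 0 ≤ b) (u : Idx.{u} →₀ UU K) :
    ((ππ K c1 a b u : Msub K a b) : DualNumber K) = LL c1 u := by
  simp [ππ, h]

theorem monad (c : ℤ × ℤ) : (TT K).IsBeilinsonMonad c (FF K) := by
  refine ⟨max 0 (max (-c.1) (-c.2)), ?_, ?_⟩
  · intro d p q hp hq hd u hu
    by_cases h1 : c.1 + c.2 - (d + 1) = 1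
    · exact exact_one h1 hu
    · by_cases h2 : c.1 + c.2 - (d + 1) = 2
      · exact exact_two h2 hu
      · exact exact_other (by omega) h1 h2 hu
  · intro d hd
    refine ⟨fun _ _ a b u => ππ K c.1 a b u, ?_⟩
    intro p q a b hp hq ha hb
    have hd' : c.1 + c.2 - (d + 1) = 0 := by omega
    have hp0 : 0 ≤ p := (le_max_left _ _).trans hp
    have hq0 : 0 ≤ q := (le_max_left _ _).trans hq
    have hp1 : -c.1 ≤ p := ((le_max_left _ _).trans (le_max_right _ _)).trans hp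
    have hq1 : -c.2 ≤ q := ((le_max_right _ _).trans (le_max_right _ _)).trans hq
    obtain ⟨p, rfl⟩ := Int.eq_ofNat_of_zero_le hp0
    obtain ⟨q, rfl⟩ := Int.eq_ofNat_of_zero_le hq0
    have hab : 0 ≤ a ∧ 0 ≤ b := by omega
    refine ⟨(ππ K c.1 a b).isLinear, ?_, ?_, ?_, ?_⟩
    · rintro ⟨m, hm0⟩
      obtain ⟨u, hu, hm⟩ := LL_surj (p := p) (q := q) hd' m
      exact ⟨u, cyc_zero hd' hu, Subtype.ext ((ππ_coe K hab u).trans hm)⟩
    · intro u hu
      constructor
      · intro h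
        apply LL_zero hd' (mem_Ucycle.1 hu).1
        rw [← ππ_coe K hab u]
        exact congrArg Subtype.val h
      · intro h
        exact Subtype.ext ((ππ_coe K hab u).trans (LL_boundary h))
    · intro i u hu
      apply Subtype.ext
      refine (ππ_coe K (a := a + 1) (b := b) (by omega) _).trans ?_
      refine (LL_smul c.1 (MvPolynomial.X (Sum.inl i)) u).trans ?_
      rw [ev_inl]
      exact congrArg (tv i * ·) (ππ_coe K hab u).symm
    · intro i u hu
      apply Subtype.ext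
      refine (ππ_coe K (a := a) (b := b + 1) (by omega) _).trans ?_
      refine (LL_smul c.1 (MvPolynomial.X (Sum.inr i)) u).trans ?_
      rw [ev_inr]
      exact congrArg (tv i * ·) (ππ_coe K hab u).symm

/-- The main theorem. -/
theorem main : ∃ F : BiMod K, F.FG ∧
    (∃ T : FreeCx K, IsTateResolutionOf T F ∧ T.HasDoubleComplexStructure) ∧
    ¬ IsSumOfBoxProducts F :=
  ⟨FF K, FF_fg K, ⟨TT K, ⟨TT_tate K, TT_minimal K, monad K⟩, TT_double K⟩, FF_not_sum K⟩

end Pool.Agent.MP_df5a96_ag
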